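/-
The shift of the inner automorphisms.
-/
import Pool.Agent.H.MP_59b15d_al.h93c.TL

set_option autoImplicit false

namespace Pool.Agent.H.MP_59b15d_al.H40T

open Pool.Agent.H.MP_59b15d_al.SP Pool.Agent.H.MP_59b15d_al.H93C
open Pool.MP_59b15d_al.H24T Pool.MP_59b15d_al.H76R Pool.MP_59b15d_al.H73E
open Pool.MP_59b15d_al.H60G
open FreeGroup (of)

variable {n : ℕ} {G : Type*} [Group G] {a b : Fin (n + 1) → G}

/-- The lifts of an inner automorphism. -/
theorem Lf.conj_hs (h : IsSurf a b) (hn : 1 ≤ n) {x : G} {F : MulAut (Fr (n + 1))}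
    (hF : Lf a b (MulAut.conj x) F) (z : Fr (n + 1)) :
    hs (F z) = hs z * Hs.z ^ (-(n : ℤ) * om (cls h x) (clr z)) := by
  obtain ⟨w, rfl⟩ := qH_surj h x
  have h1 := lemK (g := n + 1) (by omega) F (FT_dl F hF.mem) w (fun z => by
    refine ⟨(w * z * w⁻¹)⁻¹ * F z, qH_ker h ?_, by group⟩
    rw [map_mul, ← hF.ind, MulAut.conj_apply, map_inv, map_mul, map_mul, map_inv,
      inv_mul_cancel]) z
  rw [h1, cls_qH]
  congr 2
  push_cast
  ring

/-- The shift of an inner automorphism. -/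
theorem TL_inner (h : IsSurf a b) (hn : 1 ≤ n) (x : G) :
    TL a b (MulAut.conj x) (-(n : ℤ) • cls h x) := by
  obtain ⟨F, hF⟩ := exists_Lf h (φ := MulAut.conj x) (Subgroup.subset_closure (Or.inl ⟨x, rfl⟩))
  refine ⟨F, hF, fun z => ?_⟩
  rw [Lf.conj_hs h hn hF, om_smul_left]

/-- The inner automorphisms realise the multiples of `n`. -/
theorem exists_inner (h : IsSurf a b) (hn : 1 ≤ n) (v : V (n + 1)) :
    ∃ x : G, TL a b (MulAut.conj x) ((n : ℤ) • v) := by
  obtain ⟨x, hx⟩ := cls_surj h (-v)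
  refine ⟨x, ?_⟩
  have := TL_inner h hn x
  rwa [hx, smul_neg, neg_smul, neg_neg] at this

end Pool.Agent.H.MP_59b15d_al.H40T
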