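/-
A normal subgroup which contains all the commutators of the Torelli group with the mapping class
group contains the null homologous pushes, the inner automorphisms and the genus one separating
twist.
-/
import Pool.Agent.H.MP_59b15d_al.h93c.Cent
import Pool.Agent.H.MP_59b15d_al.h93c.Kern
import Pool.Agent.H.MP_59b15d_al.pk.HX

set_option autoImplicit false

namespace Pool.Agent.H.MP_59b15d_al.H40T

open Pool.Agent.H.MP_59b15d_al.SP Pool.Agent.H.MP_59b15d_al.H93C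
open Pool.MP_59b15d_al.H24T Pool.MP_59b15d_al.H76R Pool.MP_59b15d_al.H73E
open Pool.MP_59b15d_al.H60G Pool.MP_59b15d_al.H95G
open FreeGroup (of)

variable {n : ℕ} {G : Type*} [Group G] {a b : Fin (n + 1) → G}

lemma XXm (h : IsSurf a b) (y : Fr n) : XX h y ∈ MMs h := MMs_eq_TW h ▸ XX_TW h y

lemma TTm (h : IsSurf a b) (k : ℤ) : TT h ^ k ∈ MMs h :=
  (MMs h).zpow_mem (Subgroup.subset_closure (Or.inr (Or.inl ⟨_, rfl⟩))) k

/-- When a push times a power of the twist acts trivially on the first homology. -/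
lemma XX_TT_iff (h : IsSurf a b) {y : Fr n} {k : ℤ} (h1 : H1 h (XX h y * TT h ^ k) = 1) :
    clr y = 0 ∧ k = -wn (hs y) := by
  obtain ⟨x1, -, x3⟩ := XX_H1 h y
  obtain ⟨t1, t2⟩ := TT_H1 h k
  have h2 : H1 h (XX h y) (H1 h (TT h ^ k) (f (Fin.last n))) = f (Fin.last n) := by
    have h3 : H1 h (XX h y * TT h ^ k) (f (Fin.last n)) = f (Fin.last n) := by
      rw [h1]; rfl
    rw [map_mul] at h3
    exact h3
  rw [t2, map_add, map_smul, x3, x1] at h2
  have h3 : emb (clr y) + (wn (hs y) + k) • (e (Fin.last n) : V (n + 1)) = 0 := by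
    linear_combination (exp := 1) h2
  constructor
  · funext i
    have h4 := congrFun h3 i.castSucc
    rw [Pi.add_apply, Pi.smul_apply, emb_cs, e_ne (Fin.castSucc_lt_last i).ne, smul_zero,
      add_zero] at h4
    exact h4
  · have h4 := congrFun h3 (Fin.last n)
    rw [Pi.add_apply, Pi.smul_apply, emb_last, e_self, zero_add] at h4
    have h5 := congrArg Prod.fst h4
    simp only [Prod.smul_fst, smul_eq_mul, mul_one] at h5
    change wn (hs y) + k = 0 at h5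
    omega

/-- A push with trivial class in the Heisenberg group acts trivially on the first homology. -/
lemma XX_triv (h : IsSurf a b) {y : Fr n} (hy : hs y = 1) : H1 h (XX h y) = 1 := by
  have h0 : clr y = 0 := by rw [clr, hy]; rfl
  obtain ⟨k, hk⟩ := PK.XX_TT_triv h h0
  obtain ⟨-, h1⟩ := XX_TT_iff h hk
  rw [hy, wn_one, neg_zero] at h1
  rwa [h1, zpow_zero, mul_one] at hk

section gen

variable (h : IsSurf a b) (K : Subgroup (MulAut G))
    (hK : ∀ ψ ∈ MMs h, ∀ x ∈ K, ψ * x * ψ⁻¹ ∈ K)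
    (hc : ∀ x ∈ MMs h, H1 h x = 1 → ∀ κ ∈ MMs h, x * κ * x⁻¹ * κ⁻¹ ∈ K)

include hK in
lemma unconj {ψ x : MulAut G} (hψ : ψ ∈ MMs h) (hx : ψ * x * ψ⁻¹ ∈ K) : x ∈ K := by
  have h1 := hK ψ⁻¹ ((MMs h).inv_mem hψ) _ hx
  have h2 : ψ⁻¹ * (ψ * x * ψ⁻¹) * ψ⁻¹⁻¹ = x := by group
  rwa [h2] at h1

include hc in
/-- A mapping class moves a homologically trivial push. -/
lemma XX_step {f' : MulAut (Fr n)} {φ : MulAut G} (hp : Pair h f' φ) (hφ : φ ∈ MMs h) {z : Fr n}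
    (hz : hs z = 1) (hz' : hs (f' z) = 1) : XX h (f' z * z⁻¹) ∈ K := by
  have h1 := pair_exact h hp z (by rw [hz', hz])
  have h2 := K.inv_mem (hc _ (XXm h z) (XX_triv h hz) φ hφ)
  have h3 : (XX h z * φ * (XX h z)⁻¹ * φ⁻¹)⁻¹ = φ * XX h z * φ⁻¹ * (XX h z)⁻¹ := by group
  rw [h3, h1, ← map_inv, ← map_mul] at h2
  exact h2

lemma Hf_clr {i j : Fin n} (hij : i ≠ j) {y : Fr n} (hy : y ∈ Hf n j) : (clr y) i = 0 := by
  refine Subgroup.closure_induction (p := fun y _ => (clr y) i = 0) ?_ ?_ ?_ ?_ hy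
  · rintro _ (rfl | rfl)
    · rw [clr_a, e_ne hij]
    · rw [clr_b, f_ne hij]
  · rw [clr_one]; rfl
  · intro x y _ _ hx hy
    rw [clr_mul, Pi.add_apply, hx, hy, add_zero]
  · intro x _ hx
    rw [clr_inv, Pi.neg_apply, hx, neg_zero]

lemma hs_comm (x y : Fr n) : hs (x * y * x⁻¹ * y⁻¹) = Hs.z ^ om (clr x) (clr y) := by
  rw [map_mul, map_mul, map_mul, map_inv, map_inv, Hs.comm_eq]
  rfl

include hK hc in
lemma r1_gen {i j : Fin n} (hij : i ≠ j) {y : Fr n} (hy : y ∈ Hf n j) :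
    XX h (of (Sum.inl i) * y * (of (Sum.inl i))⁻¹ * y⁻¹) ∈ K ∧
      XX h (of (Sum.inr i) * y * (of (Sum.inr i))⁻¹ * y⁻¹) ∈ K := by
  have h0 := Hf_clr hij hy
  have oe : om (e i) (clr y) = 0 := by rw [om_swap, om_e, h0]; rfl
  have og : om (f i) (clr y) = 0 := by rw [om_swap, om_f, h0]; rfl
  have ca : hs (of (Sum.inl i) * y * (of (Sum.inl i))⁻¹ * y⁻¹) = 1 := by
    rw [hs_comm, clr_a, oe, zpow_zero]
  have cb : hs (of (Sum.inr i) * y * (of (Sum.inr i))⁻¹ * y⁻¹) = 1 := by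
    rw [hs_comm, clr_b, og, zpow_zero]
  have cab : hs (of (Sum.inl i) * of (Sum.inr i) * y * (of (Sum.inl i) * of (Sum.inr i))⁻¹ * y⁻¹) =
      1 := by
    rw [hs_comm, clr_mul, clr_a, clr_b, om_add_left, oe, og, add_zero, zpow_zero]
  have cba : hs (of (Sum.inr i) * of (Sum.inl i) * y * (of (Sum.inr i) * of (Sum.inl i))⁻¹ * y⁻¹) =
      1 := by
    rw [hs_comm, clr_mul, clr_a, clr_b, om_add_left, oe, og, add_zero, zpow_zero]
  have fixA : FA i y = y := by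
    refine Subgroup.closure_induction (p := fun y _ => FA i y = y) ?_ ?_ ?_ ?_ hy
    · rintro _ (rfl | rfl)
      · rw [FA_ne i (by simp)]
      · rw [FA_ne i (by simp [Ne.symm hij])]
    · rw [map_one]
    · intro x y _ _ hx hy
      rw [map_mul, hx, hy]
    · intro x _ hx
      rw [map_inv, hx]
  have fixB : FB i y = y := by
    refine Subgroup.closure_induction (p := fun y _ => FB i y = y) ?_ ?_ ?_ ?_ hy
    · rintro _ (rfl | rfl)
      · rw [FB_ne i (by simp [Ne.symm hij])]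
      · rw [FB_ne i (by simp)]
    · rw [map_one]
    · intro x y _ _ hx hy
      rw [map_mul, hx, hy]
    · intro x _ hx
      rw [map_inv, hx]
  have mA : TA h i.castSucc ∈ MMs h := Subgroup.subset_closure (Or.inr (Or.inl ⟨_, rfl⟩))
  have mB : TB h i.castSucc ∈ MMs h := Subgroup.subset_closure (Or.inr (Or.inr (Or.inl ⟨_, rfl⟩)))
  constructor
  · have e1 : FA i (of (Sum.inr i) * y * (of (Sum.inr i))⁻¹ * y⁻¹) =
        of (Sum.inr i) * of (Sum.inl i) * y * (of (Sum.inr i) * of (Sum.inl i))⁻¹ * y⁻¹ := by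
      simp only [map_mul, map_inv, FA_self, fixA]
    have h1 := XX_step h K hc (pair_TA h i) mA cb (by rw [e1]; exact cba)
    rw [e1] at h1
    refine unconj h K hK (XXm h (of (Sum.inr i))) ?_
    rw [← map_mul, ← map_inv, ← map_mul]
    have e2 : of (Sum.inr i) * (of (Sum.inl i) * y * (of (Sum.inl i))⁻¹ * y⁻¹) *
        (of (Sum.inr i))⁻¹ = of (Sum.inr i) * of (Sum.inl i) * y *
        (of (Sum.inr i) * of (Sum.inl i))⁻¹ * y⁻¹ *
        (of (Sum.inr i) * y * (of (Sum.inr i))⁻¹ * y⁻¹)⁻¹ := by group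
    rw [e2]
    exact h1
  · have e1 : FB i (of (Sum.inl i) * y * (of (Sum.inl i))⁻¹ * y⁻¹) =
        of (Sum.inl i) * of (Sum.inr i) * y * (of (Sum.inl i) * of (Sum.inr i))⁻¹ * y⁻¹ := by
      simp only [map_mul, map_inv, FB_self, fixB]
    have h1 := XX_step h K hc (pair_TB h i) mB ca (by rw [e1]; exact cab)
    rw [e1] at h1
    refine unconj h K hK (XXm h (of (Sum.inl i))) ?_
    rw [← map_mul, ← map_inv, ← map_mul]
    have e2 : of (Sum.inl i) * (of (Sum.inr i) * y * (of (Sum.inr i))⁻¹ * y⁻¹) *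
        (of (Sum.inl i))⁻¹ = of (Sum.inl i) * of (Sum.inr i) * y *
        (of (Sum.inl i) * of (Sum.inr i))⁻¹ * y⁻¹ *
        (of (Sum.inl i) * y * (of (Sum.inl i))⁻¹ * y⁻¹)⁻¹ := by group
    rw [e2]
    exact h1

include hK hc in
lemma r1_all {i j : Fin n} (hij : i ≠ j) {x y : Fr n} (hx : x ∈ Hf n i) (hy : y ∈ Hf n j) :
    XX h (x * y * x⁻¹ * y⁻¹) ∈ K := by
  refine Subgroup.closure_induction (p := fun x _ => XX h (x * y * x⁻¹ * y⁻¹) ∈ K) ?_ ?_ ?_ ?_ hx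
  · rintro _ (rfl | rfl)
    · exact (r1_gen h K hK hc hij hy).1
    · exact (r1_gen h K hK hc hij hy).2
  · have e1 : (1 : Fr n) * y * 1⁻¹ * y⁻¹ = 1 := by group
    rw [e1, map_one]
    exact K.one_mem
  · intro x x' _ _ hx hx'
    have e1 : x * x' * y * (x * x')⁻¹ * y⁻¹ = x * (x' * y * x'⁻¹ * y⁻¹) * x⁻¹ *
        (x * y * x⁻¹ * y⁻¹) := by group
    rw [e1, map_mul]
    refine K.mul_mem ?_ hx
    rw [map_mul, map_mul, map_inv]
    exact hK _ (XXm h x) _ hx'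
  · intro x _ hx
    have e1 : x⁻¹ * y * x⁻¹⁻¹ * y⁻¹ = x⁻¹ * (x * y * x⁻¹ * y⁻¹)⁻¹ * x⁻¹⁻¹ := by group
    rw [e1, map_mul, map_mul, map_inv (XX h) (x * y * x⁻¹ * y⁻¹), map_inv (XX h) (x⁻¹)]
    exact hK _ (XXm h x⁻¹) _ (K.inv_mem hx)

include hc in
lemma r3_all (i : Fin n) (z : Fr n) : XX h (cf i * z * (cf i)⁻¹ * z⁻¹) ∈ K := by
  have h0 : clr (cf i : Fr n) = 0 := by
    rw [cf, clr_mul, clr_mul, clr_mul, clr_inv, clr_inv, clr_a, clr_b]
    abel
  obtain ⟨k, hk⟩ := PK.XX_TT_triv h h0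
  have h1 := hc _ (mul_mem (XXm h (cf i)) (TTm h k)) hk _ (XXm h z)
  have c1 : Commute (TT h ^ k) (XX h z) := (TT_XX h z).zpow_left k
  have c2 : XX h (cf i) * TT h ^ k * XX h z * (XX h (cf i) * TT h ^ k)⁻¹ * (XX h z)⁻¹ =
      XX h (cf i * z * (cf i)⁻¹ * z⁻¹) := by
    rw [map_mul, map_mul, map_mul, map_inv, map_inv, mul_inv_rev]
    calc XX h (cf i) * TT h ^ k * XX h z * ((TT h ^ k)⁻¹ * (XX h (cf i))⁻¹) * (XX h z)⁻¹ =
        XX h (cf i) * (TT h ^ k * XX h z) * (TT h ^ k)⁻¹ * (XX h (cf i))⁻¹ * (XX h z)⁻¹ := by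
          group
      _ = _ := by rw [c1.eq]; group
  rwa [c2] at h1

/-- Algebra for two adjacent handles. -/
lemma two_handles {Q : Type*} [Group Q] {A B C D c d : Q} (hAC : Commute A C) (hAD : Commute A D)
    (hBC : Commute B C) (hBD : Commute B D) (hc1 : ∀ x : Q, Commute c x)
    (hd1 : ∀ x : Q, Commute d x) (hcc : A * B * A⁻¹ * B⁻¹ = c) (hdd : C * D * C⁻¹ * D⁻¹ = d)
    (he : Commute (A * (C⁻¹ * B)) (D * (C⁻¹ * B))) : c = d := by
  have e1 : A * B = c * (B * A) := by rw [← hcc]; group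
  have e2 : C * D = d * (D * C) := by rw [← hdd]; group
  have e3 : D * C⁻¹ = d * (C⁻¹ * D) := by
    have h1 : C⁻¹ * (C * D) * C⁻¹ = C⁻¹ * (d * (D * C)) * C⁻¹ := by rw [e2]
    have h2 : C⁻¹ * (C * D) * C⁻¹ = D * C⁻¹ := by group
    have h3 : C⁻¹ * (d * (D * C)) * C⁻¹ = d * (C⁻¹ * D) := by
      rw [← mul_assoc C⁻¹ d, ← (hd1 C⁻¹).eq]
      group
    rw [← h2, h1, h3]
  have hBC' : B * C⁻¹ = C⁻¹ * B := hBC.inv_right.eq
  have hAC' : A * C⁻¹ = C⁻¹ * A := hAC.inv_right.eq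
  have h4 : A * (C⁻¹ * B) * (D * (C⁻¹ * B)) = D * (C⁻¹ * B) * (A * (C⁻¹ * B)) := he.eq
  -- left hand side
  have h5 : A * (C⁻¹ * B) * (D * (C⁻¹ * B)) = (C⁻¹ * D) * (A * B) * (C⁻¹ * B) := by
    calc A * (C⁻¹ * B) * (D * (C⁻¹ * B)) = (A * C⁻¹) * (B * D) * (C⁻¹ * B) := by group
      _ = C⁻¹ * (A * D) * B * (C⁻¹ * B) := by rw [hAC', hBD.eq]; group
      _ = _ := by rw [hAD.eq]; group
  have h6 : D * (C⁻¹ * B) * (A * (C⁻¹ * B)) = (D * C⁻¹) * (B * A) * (C⁻¹ * B) := by group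
  rw [h5, h6] at h4
  have h7 := mul_right_cancel h4
  rw [e1, e3] at h7
  have h8 : C⁻¹ * D * (c * (B * A)) = c * (C⁻¹ * D * (B * A)) := by
    rw [← mul_assoc, ← (hc1 (C⁻¹ * D)).eq, mul_assoc]
  have h9 : d * (C⁻¹ * D) * (B * A) = d * (C⁻¹ * D * (B * A)) := by group
  rw [h8, h9] at h7
  exact mul_right_cancel h7

include hK hc in
/-- The relations of the growth theorem hold modulo `K`. -/
theorem Rels_gen : Rels h K := by
  have r1 : ∀ i j : Fin n, i ≠ j → ∀ x ∈ Hf n i, ∀ y ∈ Hf n j,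
      XX h (x * y * x⁻¹ * y⁻¹) ∈ K := fun i j hij x hx y hy => r1_all h K hK hc hij hx hy
  have r3 := r3_all h K hc
  have hnm : (K.comap (XX h)).Normal := ⟨fun x hx g => by
    rw [Subgroup.mem_comap, map_mul, map_mul, map_inv]
    exact hK _ (XXm h g) _ hx⟩
  let π : Fr n →* Fr n ⧸ K.comap (XX h) := QuotientGroup.mk' _
  have hπ : ∀ x, XX h x ∈ K → π x = 1 := fun x hx => (QuotientGroup.eq_one_iff x).2 hx
  have hcm : ∀ x y, XX h (x * y * x⁻¹ * y⁻¹) ∈ K → Commute (π x) (π y) := by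
    intro x y hxy
    have h1 := hπ _ hxy
    simp only [map_mul, map_inv] at h1
    have h2 := mul_inv_eq_one.1 h1
    exact mul_inv_eq_iff_eq_mul.1 h2
  have hcen : ∀ (i : Fin n) (q : Fr n ⧸ K.comap (XX h)), Commute (π (cf i)) q := by
    intro i q
    obtain ⟨z, rfl⟩ := QuotientGroup.mk'_surjective _ q
    exact hcm _ _ (r3 i z)
  have hadj : ∀ (i j : Fin n), (j : ℕ) = i + 1 → π (cf i) = π (cf j) := by
    intro i j hij
    have hne := ne_of_hij hij
    have hij' : ((j.castSucc : Fin (n + 1)) : ℕ) = i.castSucc + 1 := hij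
    have mC : TC h i.castSucc j.castSucc hij' ∈ MMs h :=
      Subgroup.subset_closure (Or.inr (Or.inr (Or.inr ⟨_, _, _, rfl⟩)))
    have hz : XX h (of (Sum.inl i) * of (Sum.inr j) * (of (Sum.inl i))⁻¹ * (of (Sum.inr j))⁻¹) ∈ K :=
      r1 i j hne _ (Hf_a i) _ (Hf_b j)
    have hz1 : hs (of (Sum.inl i) * of (Sum.inr j) * (of (Sum.inl i))⁻¹ *
        (of (Sum.inr j) : Fr n)⁻¹) = 1 := by
      rw [hs_comm, clr_a, clr_b, om_e_f_ne hne, zpow_zero]
    have e1 : FC i j hne (of (Sum.inl i) * of (Sum.inr j) * (of (Sum.inl i))⁻¹ *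
        (of (Sum.inr j))⁻¹) = of (Sum.inl i) * ((of (Sum.inl j))⁻¹ * of (Sum.inr i)) *
        (of (Sum.inr j) * ((of (Sum.inl j))⁻¹ * of (Sum.inr i))) *
        (of (Sum.inl i) * ((of (Sum.inl j))⁻¹ * of (Sum.inr i)))⁻¹ *
        (of (Sum.inr j) * ((of (Sum.inl j))⁻¹ * of (Sum.inr i)))⁻¹ := by
      simp only [map_mul, map_inv, FC_ai, FC_bj]
    have hz2 : hs (FC i j hne (of (Sum.inl i) * of (Sum.inr j) * (of (Sum.inl i))⁻¹ *
        (of (Sum.inr j) : Fr n)⁻¹)) = 1 := by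
      rw [e1, hs_comm]
      have e2 : om (clr (of (Sum.inl i) * ((of (Sum.inl j))⁻¹ * of (Sum.inr i)) : Fr n))
          (clr (of (Sum.inr j) * ((of (Sum.inl j))⁻¹ * of (Sum.inr i)) : Fr n)) = 0 := by
        simp only [clr_mul, clr_inv, clr_a, clr_b, om_add_left, om_add_right, om_neg_left,
          om_neg_right, om_e_e, om_f_f, om_e_f, om_f_e, om_e_f_ne hne, om_f_e_ne hne,
          om_e_f_ne hne.symm, om_f_e_ne hne.symm]
        ring
      rw [e2, zpow_zero]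
    have h1 := XX_step h K hc (pair_TC h hij) mC hz1 hz2
    rw [e1, map_mul, map_inv] at h1
    have h2 := (K.mul_mem h1 hz)
    rw [inv_mul_cancel_right] at h2
    have h3 := hcm _ _ h2
    refine two_handles (hcm _ _ (r1 i j hne _ (Hf_a i) _ (Hf_a j)))
      (hcm _ _ (r1 i j hne _ (Hf_a i) _ (Hf_b j))) (hcm _ _ (r1 i j hne _ (Hf_b i) _ (Hf_a j)))
      (hcm _ _ (r1 i j hne _ (Hf_b i) _ (Hf_b j))) (hcen i) (hcen j) ?_ ?_ ?_
    · rw [cf]
      simp only [map_mul, map_inv]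
    · rw [cf]
      simp only [map_mul, map_inv]
    · simpa only [map_mul, map_inv] using h3
  have hall : ∀ (k : ℕ) (i j : Fin n), (i : ℕ) = 0 → (j : ℕ) = k → π (cf i) = π (cf j) := by
    intro k
    induction k with
    | zero =>
      intro i j hi hj
      have : i = j := Fin.ext (by omega)
      rw [this]
    | succ k ih =>
      intro i j hi hj
      have hk : k < n := by have := j.2; omega
      rw [ih i ⟨k, hk⟩ hi rfl]
      exact hadj _ _ (by rw [hj])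
  refine ⟨r1, fun i j => ?_, r3⟩
  have hn0 : 0 < n := by have := i.2; omega
  have h1 : π (cf i) = π (cf j) :=
    ((hall i ⟨0, hn0⟩ i rfl rfl).symm).trans (hall j ⟨0, hn0⟩ j rfl rfl)
  have h2 : π (cf i * (cf j)⁻¹) = 1 := by rw [map_mul, map_inv, h1, mul_inv_cancel]
  have h3 := (QuotientGroup.eq_one_iff (N := K.comap (XX h)) (cf i * (cf j)⁻¹)).1 h2
  exact h3

end gen

end Pool.Agent.H.MP_59b15d_al.H40T
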