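/-
Contractions of cyclically symmetric tensors modulo three.
-/
import Mathlib

set_option autoImplicit false

namespace Pool.Agent.H.MP_59b15d_al.H40T

variable {R : Type*} [CommRing R] {m : ℕ}

/-- The symplectic matrix. -/
def w (R : Type*) [CommRing R] {m : ℕ} : Fin m ⊕ Fin m → Fin m ⊕ Fin m → R
  | Sum.inl i, Sum.inr j => if i = j then 1 else 0
  | Sum.inr i, Sum.inl j => if i = j then -1 else 0
  | Sum.inl _, Sum.inl _ => 0
  | Sum.inr _, Sum.inr _ => 0

lemma w_swap (i j : Fin m ⊕ Fin m) : w R j i = -w R i j := by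
  rcases i with i | i <;> rcases j with j | j
  · simp [w]
  · change (if j = i then (-1 : R) else 0) = -(if i = j then 1 else 0)
    by_cases h : i = j
    · rw [if_pos h, if_pos h.symm]
    · rw [if_neg h, if_neg (fun h' => h h'.symm), neg_zero]
  · change (if j = i then (1 : R) else 0) = -(if i = j then -1 else 0)
    by_cases h : i = j
    · rw [if_pos h, if_pos h.symm, neg_neg]
    · rw [if_neg h, if_neg (fun h' => h h'.symm), neg_zero]
  · simp [w]

/-- The matrix squares to minus one. -/
lemma w_sq (i k : Fin m ⊕ Fin m) : ∑ j, w R i j * w R j k = if i = k then -1 else 0 := by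
  rcases i with i | i <;> rcases k with k | k
  · simp only [Fintype.sum_sum_type, w, mul_zero, Finset.sum_const_zero, zero_add, mul_ite, ite_mul,
      one_mul, mul_one, mul_neg, zero_mul, Finset.sum_ite_eq, Finset.mem_univ, if_true,
      Sum.inl.injEq]
    by_cases h : i = k
    · simp [h]
    · simp [h]
  · simp [w, Fintype.sum_sum_type]
  · simp [w, Fintype.sum_sum_type]
  · simp only [Fintype.sum_sum_type, w, mul_zero, Finset.sum_const_zero, add_zero, mul_ite, ite_mul,
      one_mul, mul_one, neg_mul, zero_mul, Finset.sum_ite_eq, Finset.mem_univ, if_true,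
      Sum.inr.injEq]
    by_cases h : i = k
    · simp [h]
    · simp [h]

lemma w_sq' (i k : Fin m ⊕ Fin m) : ∑ j, w R j i * w R j k = if i = k then 1 else 0 := by
  have h1 : ∑ j, w R j i * w R j k = -∑ j, w R i j * w R j k := by
    rw [← Finset.sum_neg_distrib]
    refine Finset.sum_congr rfl fun j _ => ?_
    rw [w_swap i j]
    ring
  rw [h1, w_sq]
  split_ifs <;> simp

section cyc

variable {K : Type*} [Fintype K]

/-- The sum of a cyclically symmetric tensor vanishing on the partial diagonals is divisible by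
three. -/
lemma cyc3 (g : K → K → K → R) (hc : ∀ i p r, g i p r = g p r i) (h0 : ∀ i p, g i i p = 0) :
    ∃ S : R, ∑ i, ∑ p, ∑ r, g i p r = 3 * S := by
  classical
  set ρ := Fintype.equivFin K with hρ
  have hne : ∀ i p : K, i ≠ p → ρ i ≠ ρ p := fun i p h1 h2 => h1 (ρ.injective h2)
  set c : K → K → K → R := fun i p r => if ρ i < ρ p ∧ ρ i < ρ r then g i p r else 0 with hcd
  have key : ∀ i p r, g i p r = c i p r + c p r i + c r i p := by
    intro i p r
    by_cases h1 : i = p
    · subst h1
      have e1 : g i i r = 0 := h0 i r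
      have e2 : g i r i = 0 := by rw [← hc i i r]; exact e1
      have e3 : g r i i = 0 := by rw [hc r i i]; exact e1
      simp [hcd, e1, e2, e3]
    by_cases h2 : p = r
    · subst h2
      have e1 : g p p i = 0 := h0 p i
      have e2 : g i p p = 0 := by rw [hc i p p]; exact e1
      have e3 : g p i p = 0 := by rw [← hc p p i]; exact e1
      simp [hcd, e1, e2, e3]
    by_cases h3 : r = i
    · subst h3
      have e1 : g r r p = 0 := h0 r p
      have e2 : g r p r = 0 := by rw [← hc r r p]; exact e1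
      have e3 : g p r r = 0 := by rw [hc p r r]; exact e1
      simp [hcd, e1, e2, e3]
    have n1 := hne i p h1
    have n2 := hne p r h2
    have n3 := hne r i h3
    simp only [hcd]
    rcases lt_trichotomy (ρ i) (ρ p) with a1 | a1 | a1
    · rcases lt_trichotomy (ρ r) (ρ i) with a3 | a3 | a3
      · have b1 : ¬ (ρ i < ρ p ∧ ρ i < ρ r) := fun h => absurd h.2 (not_lt.2 a3.le)
        have b2 : ¬ (ρ p < ρ r ∧ ρ p < ρ i) := fun h => absurd h.2 (not_lt.2 a1.le)
        have b3 : ρ r < ρ i ∧ ρ r < ρ p := ⟨a3, a3.trans a1⟩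
        rw [if_neg b1, if_neg b2, if_pos b3, zero_add, zero_add, hc i p r, hc p r i]
      · exact absurd a3 n3
      · have b1 : ρ i < ρ p ∧ ρ i < ρ r := ⟨a1, a3⟩
        have b2 : ¬ (ρ p < ρ r ∧ ρ p < ρ i) := fun h => absurd h.2 (not_lt.2 a1.le)
        have b3 : ¬ (ρ r < ρ i ∧ ρ r < ρ p) := fun h => absurd h.1 (not_lt.2 a3.le)
        rw [if_pos b1, if_neg b2, if_neg b3, add_zero, add_zero]
    · exact absurd a1 n1
    · rcases lt_trichotomy (ρ p) (ρ r) with a2 | a2 | a2
      · have b1 : ¬ (ρ i < ρ p ∧ ρ i < ρ r) := fun h => absurd h.1 (not_lt.2 a1.le)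
        have b2 : ρ p < ρ r ∧ ρ p < ρ i := ⟨a2, a1⟩
        have b3 : ¬ (ρ r < ρ i ∧ ρ r < ρ p) := fun h => absurd h.2 (not_lt.2 a2.le)
        rw [if_neg b1, if_pos b2, if_neg b3, zero_add, add_zero, hc i p r]
      · exact absurd a2 n2
      · have b1 : ¬ (ρ i < ρ p ∧ ρ i < ρ r) := fun h => absurd h.1 (not_lt.2 a1.le)
        have b2 : ¬ (ρ p < ρ r ∧ ρ p < ρ i) := fun h => absurd h.1 (not_lt.2 a2.le)
        have b3 : ρ r < ρ i ∧ ρ r < ρ p := ⟨a2.trans a1, a2⟩
        rw [if_neg b1, if_neg b2, if_pos b3, zero_add, zero_add, hc i p r, hc p r i]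
  refine ⟨∑ i, ∑ p, ∑ r, c i p r, ?_⟩
  have e1 : ∑ i, ∑ p, ∑ r, g i p r =
      ∑ i, ∑ p, ∑ r, c i p r + ∑ i, ∑ p, ∑ r, c p r i + ∑ i, ∑ p, ∑ r, c r i p := by
    simp only [← Finset.sum_add_distrib, ← key]
  have e2 : ∑ i, ∑ p, ∑ r, c p r i = ∑ i, ∑ p, ∑ r, c i p r := by
    rw [Finset.sum_comm]
    refine Finset.sum_congr rfl fun p _ => ?_
    rw [Finset.sum_comm]
  have e3 : ∑ i, ∑ p, ∑ r, c r i p = ∑ i, ∑ p, ∑ r, c i p r := by
    calc ∑ i, ∑ p, ∑ r, c r i p = ∑ i, ∑ r, ∑ p, c r i p :=
          Finset.sum_congr rfl fun i _ => Finset.sum_comm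
      _ = ∑ r, ∑ i, ∑ p, c r i p := Finset.sum_comm
  rw [e1, e2, e3]
  ring

end cyc

/-- Symmetric data: `t l j r` is obtained from a cyclic tensor, antisymmetric in the last two
arguments. -/
structure Sy (t : Fin m ⊕ Fin m → Fin m ⊕ Fin m → Fin m ⊕ Fin m → R) : Prop where
  cyc : ∀ i j r, ∑ l, w R i l * t l j r = ∑ l, w R r l * t l i j
  anti : ∀ l j r, t l j r = -t l r j
  diag : ∀ l j, t l j j = 0

section

variable {t s : Fin m ⊕ Fin m → Fin m ⊕ Fin m → Fin m ⊕ Fin m → R}

/-- The cyclic tensor. -/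
def tau (t : Fin m ⊕ Fin m → Fin m ⊕ Fin m → Fin m ⊕ Fin m → R) (i j r : Fin m ⊕ Fin m) : R :=
  ∑ l, w R i l * t l j r

lemma tau_inv (t : Fin m ⊕ Fin m → Fin m ⊕ Fin m → Fin m ⊕ Fin m → R) (l j r : Fin m ⊕ Fin m) :
    t l j r = -∑ i, w R l i * tau t i j r := by
  have h1 : ∑ i, w R l i * tau t i j r = ∑ q, (∑ i, w R l i * w R i q) * t q j r := by
    simp only [tau, Finset.mul_sum, Finset.sum_mul]
    rw [Finset.sum_comm]
    exact Finset.sum_congr rfl fun q _ => Finset.sum_congr rfl fun i _ => by ring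
  rw [h1]
  simp only [w_sq, ite_mul, neg_one_mul, zero_mul, Finset.sum_ite_eq, Finset.mem_univ, if_true,
    neg_neg]

lemma Sy.tau_cyc (h : Sy t) (i j r : Fin m ⊕ Fin m) : tau t i j r = tau t r i j := h.cyc i j r

lemma Sy.tau_diag (h : Sy t) (i j : Fin m ⊕ Fin m) : tau t i j j = 0 := by
  simp [tau, h.diag]

/-- The contraction of the first two arguments. -/
lemma Sy.trace (h : Sy s) (q : Fin m ⊕ Fin m) : ∑ k, s k k q =
    ∑ l, w R q l * ∑ j, ∑ r, w R j r * s l j r := by
  have h1 : ∑ l, w R q l * ∑ j, ∑ r, w R j r * s l j r = ∑ j, ∑ r, w R j r * tau s q j r := by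
    simp only [tau, Finset.mul_sum]
    rw [Finset.sum_comm]
    refine Finset.sum_congr rfl fun j _ => ?_
    rw [Finset.sum_comm]
    exact Finset.sum_congr rfl fun r _ => Finset.sum_congr rfl fun l _ => by ring
  have h2 : ∀ j r, tau s q j r = tau s j r q := fun j r => by
    rw [h.tau_cyc q j r, h.tau_cyc r q j]
  rw [h1]
  simp only [h2]
  have h3 : ∑ j, ∑ r, w R j r * tau s j r q = ∑ r, ∑ l, (∑ j, w R j r * w R j l) * s l r q := by
    simp only [tau, Finset.mul_sum, Finset.sum_mul]
    rw [Finset.sum_comm]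
    refine Finset.sum_congr rfl fun r _ => ?_
    rw [Finset.sum_comm]
    exact Finset.sum_congr rfl fun l _ => Finset.sum_congr rfl fun j _ => by ring
  rw [h3]
  simp only [w_sq', ite_mul, one_mul, zero_mul, Finset.sum_ite_eq, Finset.mem_univ, if_true]

/-- The total contraction of two cyclic tensors vanishes modulo three. -/
lemma Sy.total (h3 : (3 : R) = 0) (hs : Sy s) (ht : Sy t) :
    ∑ k, ∑ j, ∑ r, w R j r * ∑ p, s k p r * t p k j = 0 := by
  set T : Fin m ⊕ Fin m → Fin m ⊕ Fin m → Fin m ⊕ Fin m → R := fun i p r =>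
    ∑ q, ∑ k, ∑ j, w R j r * w R k i * w R p q * tau t q k j with hT
  have e0 : ∑ k, ∑ j, ∑ r, w R j r * ∑ p, s k p r * t p k j =
      ∑ i, ∑ p, ∑ r, tau s i p r * T i p r := by
    have e1 : ∀ k j r p, w R j r * (s k p r * t p k j) =
        ∑ i, ∑ q, w R j r * w R k i * w R p q * (tau s i p r * tau t q k j) := by
      intro k j r p
      rw [tau_inv s k p r, tau_inv t p k j, neg_mul_neg, Finset.sum_mul_sum, Finset.mul_sum]
      refine Finset.sum_congr rfl fun i _ => ?_
      rw [Finset.mul_sum]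
      exact Finset.sum_congr rfl fun q _ => by ring
    simp only [Finset.mul_sum, e1, hT]
    -- reorder
    calc ∑ k, ∑ j, ∑ r, ∑ p, ∑ i, ∑ q,
          w R j r * w R k i * w R p q * (tau s i p r * tau t q k j)
        = ∑ i, ∑ p, ∑ r, ∑ q, ∑ k, ∑ j,
          w R j r * w R k i * w R p q * (tau s i p r * tau t q k j) := by
          have c1 : ∀ k, ∑ j, ∑ r, ∑ p, ∑ i, ∑ q,
              w R j r * w R k i * w R p q * (tau s i p r * tau t q k j) =
              ∑ i, ∑ p, ∑ r, ∑ q, ∑ j,
              w R j r * w R k i * w R p q * (tau s i p r * tau t q k j) := by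
            intro k
            have d1 : ∀ j, ∑ r, ∑ p, ∑ i, ∑ q,
                w R j r * w R k i * w R p q * (tau s i p r * tau t q k j) =
                ∑ i, ∑ p, ∑ r, ∑ q,
                w R j r * w R k i * w R p q * (tau s i p r * tau t q k j) := by
              intro j
              calc _ = ∑ r, ∑ i, ∑ p, ∑ q,
                    w R j r * w R k i * w R p q * (tau s i p r * tau t q k j) :=
                    Finset.sum_congr rfl fun r _ => Finset.sum_comm
                _ = ∑ i, ∑ r, ∑ p, ∑ q,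
                    w R j r * w R k i * w R p q * (tau s i p r * tau t q k j) := Finset.sum_comm
                _ = _ := Finset.sum_congr rfl fun i _ => Finset.sum_comm
            simp only [d1]
            rw [Finset.sum_comm]
            refine Finset.sum_congr rfl fun i _ => ?_
            rw [Finset.sum_comm]
            refine Finset.sum_congr rfl fun p _ => ?_
            rw [Finset.sum_comm]
            refine Finset.sum_congr rfl fun r _ => ?_
            rw [Finset.sum_comm]
          simp only [c1]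
          rw [Finset.sum_comm]
          refine Finset.sum_congr rfl fun i _ => ?_
          rw [Finset.sum_comm]
          refine Finset.sum_congr rfl fun p _ => ?_
          rw [Finset.sum_comm]
          refine Finset.sum_congr rfl fun r _ => ?_
          rw [Finset.sum_comm]
      _ = _ := by
          refine Finset.sum_congr rfl fun i _ => Finset.sum_congr rfl fun p _ =>
            Finset.sum_congr rfl fun r _ => Finset.sum_congr rfl fun q _ =>
            Finset.sum_congr rfl fun k _ => Finset.sum_congr rfl fun j _ => by ring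
  have hc1 : ∀ i p r, tau s i p r = tau s p r i := fun i p r => by
    rw [hs.tau_cyc i p r, hs.tau_cyc r i p]
  have hc2 : ∀ i p r, T i p r = T p r i := by
    intro i p r
    simp only [hT]
    -- rename (q, k, j) -> (k', j', q')
    have d1 : ∑ q, ∑ k, ∑ j, w R j r * w R k i * w R p q * tau t q k j =
        ∑ j, ∑ q, ∑ k, w R j r * w R k i * w R p q * tau t q k j := by
      calc _ = ∑ q, ∑ j, ∑ k, w R j r * w R k i * w R p q * tau t q k j :=
            Finset.sum_congr rfl fun q _ => Finset.sum_comm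
        _ = _ := Finset.sum_comm
    rw [d1]
    refine Finset.sum_congr rfl fun j _ => Finset.sum_congr rfl fun q _ =>
      Finset.sum_congr rfl fun k _ => ?_
    rw [ht.tau_cyc q k j, w_swap r j, w_swap q p]
    ring
  obtain ⟨S, hS⟩ := cyc3 (fun i p r => tau s i p r * T i p r)
    (fun i p r => by rw [hc1 i p r, hc2 i p r])
    (fun i p => by rw [hs.tau_cyc i i p, hs.tau_diag, zero_mul])
  rw [e0, hS, h3, zero_mul]

end

end Pool.Agent.H.MP_59b15d_al.H40T
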