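/-
A normal subgroup which contains all the commutators of the Torelli group with the mapping class
group contains the null homologous pushes, the inner automorphisms and the genus one separating
twist.
-/
import Pool.Agent.H.MP_59b15d_al.h40th.Gen
import Pool.Agent.H.MP_59b15d_al.h93c.BPx
import Pool.Agent.H.MP_59b15d_al.pk.BkS

set_option autoImplicit false

namespace Pool.Agent.H.MP_59b15d_al.H40T

open Pool.Agent.H.MP_59b15d_al.SP Pool.Agent.H.MP_59b15d_al.H93C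
open Pool.MP_59b15d_al.H24T Pool.MP_59b15d_al.H76R Pool.MP_59b15d_al.H73E
open Pool.MP_59b15d_al.H60G Pool.MP_59b15d_al.H95G
open FreeGroup (of)

variable {n : ℕ} {G : Type*} [Group G] {a b : Fin (n + 1) → G}

lemma wn_z (s : ℤ) : wn ((Hs.z : Hs n) ^ s) = 2 * s := by
  rw [Hs.z_zpow, wn]
  simp [qf, lf]

section gen

variable (h : IsSurf a b) (K : Subgroup (MulAut G))
    (hK : ∀ ψ ∈ MMs h, ∀ x ∈ K, ψ * x * ψ⁻¹ ∈ K)
    (hc : ∀ x ∈ MMs h, H1 h x = 1 → ∀ κ ∈ MMs h, x * κ * x⁻¹ * κ⁻¹ ∈ K)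

include hc in
/-- The bounding pair. -/
theorem bp_gen (hn : 2 ≤ n) : ∃ (y : Fr n) (k : ℤ), hs y = Hs.z ∧ XX h y * TT h ^ k ∈ K ∧
    H1 h (XX h y * TT h ^ k) = 1 := by
  obtain ⟨φ, hφ, hTL⟩ := exists_bp h (i := ⟨0, by omega⟩) (j := ⟨1, by omega⟩) rfl _ (Or.inl rfl)
  have hφ' : φ ∈ MR h 0 n := MR_mono h (Nat.zero_le _) (by change 1 + 1 ≤ n; omega) hφ
  obtain ⟨f', F, hp, hF, hio, -, -⟩ := exists_block h hφ'
  have hφM : φ ∈ MMs h := by
    refine MR_le h ?_ ?_ ?_ hφ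
    · exact fun i _ _ => Subgroup.subset_closure (Or.inr (Or.inl ⟨_, rfl⟩))
    · exact fun i _ _ => Subgroup.subset_closure (Or.inr (Or.inr (Or.inl ⟨_, rfl⟩)))
    · exact fun i j hij _ _ => Subgroup.subset_closure (Or.inr (Or.inr (Or.inr ⟨_, _, _, rfl⟩)))
  have hφ1 := hTL.H1_eq h
  have i0 : 0 < n := by omega
  obtain ⟨y, hy⟩ : ∃ y : Fr n, y = of (Sum.inr ⟨0, i0⟩) := ⟨_, rfl⟩
  have h1 := hTL.all h (by omega) hF (io n y)
  rw [hio] at h1
  have h2 : om (e (⟨0, by omega⟩ : Fin (n + 1))) (clr (io n y)) = 1 := by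
    rw [clr_io, hy, clr_b, emb_f, om_e']
    change (f (⟨0, _⟩ : Fin (n + 1)) (⟨0, _⟩ : Fin (n + 1)) : ℤ × ℤ).2 = 1
    rw [f_self]
  rw [h2, zpow_one] at h1
  obtain ⟨k1, k2⟩ := hs_io (f' y)
  obtain ⟨k3, k4⟩ := hs_io y
  have h3 : hs (f' y) = hs y * Hs.z := by
    have e1 : (hs (f' y)).v = (hs y * Hs.z).v := by
      apply emb_inj
      rw [← k1, h1, Hs.mul_v, Hs.mul_v, k3, map_add]
      congr 1
      exact (map_zero emb).symm
    have e2 : (hs (f' y)).s = (hs y * Hs.z).s := by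
      rw [← k2, h1, Hs.mul_s, Hs.mul_s, k4]
      have e3 : (Hs.z : Hs (n + 1)).v = 0 := rfl
      have e4 : (Hs.z : Hs n).v = 0 := rfl
      rw [e3, e4, co_zero_right, co_zero_right]
      rfl
    exact Hs.ext e1 e2
  obtain ⟨k, hk⟩ := hp.fX y
  have c1 : Commute (TT h ^ k) (XX h y)⁻¹ := ((TT_XX h y).zpow_left k).inv_right
  have c2 : XX h (f' y * y⁻¹) * TT h ^ k = φ * XX h y * φ⁻¹ * (XX h y)⁻¹ := by
    rw [hk, mul_assoc, c1.eq, ← mul_assoc, ← map_inv, ← map_mul]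
  refine ⟨f' y * y⁻¹, k, ?_, ?_, ?_⟩
  · rw [map_mul, map_inv, h3, (Hs.z_comm (hs y)).symm.eq, mul_inv_cancel_right]
  · rw [c2]
    exact hc φ hφM hφ1 _ (XXm h y)
  · rw [c2]
    simp only [map_mul, map_inv, hφ1]
    group

include hK hc in
/-- **The null homologous pushes.** -/
theorem K1_gen (hn : 2 ≤ n) (y : Fr n) (k : ℤ) (hk : H1 h (XX h y * TT h ^ k) = 1) :
    XX h y * TT h ^ k ∈ K := by
  have hR := Rels_gen h K hK hc
  have hmem : ∀ y, hs y = 1 → XX h y ∈ K := fun y hy => XX_mem_of_hs h (by omega) K hK hR y hy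
  obtain ⟨y₀, k₀, h1, h2, h3⟩ := bp_gen h K hc hn
  obtain ⟨-, h4⟩ := XX_TT_iff h h3
  obtain ⟨h5, h6⟩ := XX_TT_iff h hk
  obtain ⟨s, hs'⟩ : ∃ s : ℤ, hs y = Hs.z ^ s := by
    obtain ⟨s, h7⟩ := Hs.eq_mul_z (a := hs y) (b := 1) h5
    exact ⟨s, by rw [h7, one_mul]⟩
  rw [h1, ← zpow_one (Hs.z : Hs n), wn_z] at h4
  rw [hs', wn_z] at h6
  have h7 : XX h (y * (y₀ ^ s)⁻¹) ∈ K := by
    apply hmem
    rw [map_mul, map_inv, map_zpow, h1, hs', mul_inv_cancel]
  have h8 := K.mul_mem h7 (K.zpow_mem h2 s)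
  have h9 : XX h (y * (y₀ ^ s)⁻¹) * (XX h y₀ * TT h ^ k₀) ^ s = XX h y * TT h ^ k := by
    have c1 : Commute (XX h y₀) (TT h ^ k₀) := ((TT_XX h y₀).zpow_left k₀).symm
    rw [c1.mul_zpow, ← zpow_mul, map_mul, map_inv, map_zpow]
    have e1 : k₀ * s = k := by rw [h4, h6]; ring
    rw [e1]
    group
  rwa [h9] at h8

include hK hc in
/-- The inner automorphisms. -/
theorem conj_gen (x : G) : MulAut.conj x ∈ K := by
  have hin : ∀ x : G, MulAut.conj x ∈ MMs h := fun x => Subgroup.subset_closure (Or.inl ⟨x, rfl⟩)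
  have key : ∀ (x y : G) (κ : MulAut G), κ ∈ MMs h → κ x = x * y → MulAut.conj y ∈ K := by
    intro x y κ hκ h1
    have h2 := hc _ (hin x) (H1_conj h x) _ hκ
    have h3 : MulAut.conj x * κ * (MulAut.conj x)⁻¹ * κ⁻¹ =
        MulAut.conj x * (MulAut.conj y)⁻¹ * (MulAut.conj x)⁻¹ := by
      have h4 : κ * (MulAut.conj x)⁻¹ = (MulAut.conj (x * y))⁻¹ * κ := by
        rw [← map_inv, Pool.MP_59b15d_al.H76.conj_comm_G, map_inv, h1, map_inv]
      rw [mul_assoc (MulAut.conj x), h4, map_mul, mul_inv_rev]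
      group
    rw [h3] at h2
    exact K.inv_mem_iff.1 (unconj h K hK (hin x) h2)
  have hb : ∀ i, MulAut.conj (b i) ∈ K := fun i =>
    key (a i) (b i) (TB h i) (Subgroup.subset_closure (Or.inr (Or.inr (Or.inl ⟨_, rfl⟩))))
      (TB_a h i)
  have ha : ∀ i, MulAut.conj (a i) ∈ K := fun i =>
    key (b i) (a i) (TA h i) (Subgroup.subset_closure (Or.inr (Or.inl ⟨_, rfl⟩))) (TA_b h i)
  have h1 : x ∈ Subgroup.closure (Set.range a ∪ Set.range b) := by
    rw [h.closure_eq]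
    trivial
  refine Subgroup.closure_induction (p := fun x _ => MulAut.conj x ∈ K) ?_ ?_ ?_ ?_ h1
  · rintro _ (⟨i, rfl⟩ | ⟨i, rfl⟩)
    · exact ha i
    · exact hb i
  · rw [map_one]
    exact K.one_mem
  · intro x y _ _ hx hy
    rw [map_mul]
    exact K.mul_mem hx hy
  · intro x _ hx
    rw [map_inv]
    exact K.inv_mem hx

include hK hc in
/-- **The separating twist.** -/
theorem K2_gen (hn : 2 ≤ n) : PK.rt h (Fin.last n) ^ 4 ∈ K := by
  obtain ⟨D, l, hp, h1⟩ := exists_DT h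
  obtain ⟨R, hR⟩ : ∃ R, R = PK.rt h (Fin.last n) := ⟨_, rfl⟩
  rw [← hR]
  have hD1 : H1 h D = 1 := by
    refine lin_ext (fun i => ?_) (fun i => ?_)
    · refine Fin.lastCases ?_ (fun i => ?_) i
      · rw [H1_e, hp.fa, cls_a]; rfl
      · rw [H1_e, ← jR_a (a := a) (b := b), hp.fj, MulAut.conj_apply, map_mul, map_mul, map_inv,
          jR_a, cls_mul, cls_mul, cls_inv, cls_a]
        change _ = e i.castSucc
        abel
    · refine Fin.lastCases ?_ (fun i => ?_) i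
      · rw [H1_f, hp.fb, cls_b]; rfl
      · rw [H1_f, ← jR_b (a := a) (b := b), hp.fj, MulAut.conj_apply, map_mul, map_mul, map_inv,
          jR_b, cls_mul, cls_mul, cls_inv, cls_b]
        change _ = f i.castSucc
        abel
  have h2 : XX h (dl n) * TT h ^ (-l) = MulAut.conj (aP a b)⁻¹ * D := by
    rw [h1]
    group
  have h3 : H1 h (XX h (dl n) * TT h ^ (-l)) = 1 := by
    rw [h2, map_mul, H1_conj, hD1, one_mul]
  have h4 := K1_gen h K hK hc hn _ _ h3
  rw [h2] at h4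
  have hD : D ∈ K := by
    have h5 := K.mul_mem (conj_gen h K hK hc (aP a b)) h4
    have h6 : MulAut.conj (aP a b) * (MulAut.conj (aP a b)⁻¹ * D) = D := by
      rw [map_inv, mul_inv_cancel_left]
    rwa [h6] at h5
  -- the comparison
  have r1 : R (a (Fin.last n)) = a (Fin.last n) * b (Fin.last n) * (a (Fin.last n))⁻¹ := by
    rw [hR]; exact PK.rt_a h _
  have r2 : R (b (Fin.last n)) = (a (Fin.last n))⁻¹ := by
    rw [hR]; exact PK.rt_b h _
  have r3 : ∀ i : Fin n, R (a i.castSucc) = a i.castSucc := fun i => by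
    rw [hR]; exact PK.rt_a_ne h _ (Fin.castSucc_lt_last i).ne
  have r4 : ∀ i : Fin n, R (b i.castSucc) = b i.castSucc := fun i => by
    rw [hR]; exact PK.rt_b_ne h _ (Fin.castSucc_lt_last i).ne
  have hdG : dG a b n = b (Fin.last n) * a (Fin.last n) * (b (Fin.last n))⁻¹ *
      (a (Fin.last n))⁻¹ := by
    have := aP_eq h
    rw [aP] at this
    rw [this]
    group
  have h5 : MulAut.conj (dG a b n)⁻¹ * D = R ^ 4 := by
    apply aut_ext h
    · intro k
      refine Fin.lastCases ?_ (fun i => ?_) k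
      · rw [MulAut.mul_apply, hp.fa, MulAut.conj_apply, hdG]
        simp only [pow_succ, pow_zero, one_mul, MulAut.mul_apply, r1, r2, map_mul, map_inv]
        group
      · rw [MulAut.mul_apply, ← jR_a (a := a) (b := b), hp.fj, MulAut.conj_apply,
          MulAut.conj_apply, map_mul, map_mul, map_inv, jR_a]
        simp only [pow_succ, pow_zero, one_mul, MulAut.mul_apply, r3]
        change (dG a b n)⁻¹ * (dG a b n * a i.castSucc * (dG a b n)⁻¹) * (dG a b n)⁻¹⁻¹ = _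
        group
    · intro k
      refine Fin.lastCases ?_ (fun i => ?_) k
      · rw [MulAut.mul_apply, hp.fb, MulAut.conj_apply, hdG]
        simp only [pow_succ, pow_zero, one_mul, MulAut.mul_apply, r1, r2, map_mul, map_inv]
        group
      · rw [MulAut.mul_apply, ← jR_b (a := a) (b := b), hp.fj, MulAut.conj_apply,
          MulAut.conj_apply, map_mul, map_mul, map_inv, jR_b]
        simp only [pow_succ, pow_zero, one_mul, MulAut.mul_apply, r4]
        change (dG a b n)⁻¹ * (dG a b n * b i.castSucc * (dG a b n)⁻¹) * (dG a b n)⁻¹⁻¹ = _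
        group
  rw [← h5]
  exact K.mul_mem (conj_gen h K hK hc _) hD

end gen

end Pool.Agent.H.MP_59b15d_al.H40T
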