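/-
The group of truncated series `1 + v + x + y` in noncommuting variables (degree at most three), and
substitution of group elements for the variables.
-/
import Mathlib

set_option autoImplicit false

namespace Pool.Agent.H.MP_59b15d_al.H40T

/-- Truncated series with constant term one. -/
@[ext]
structure MG (R : Type*) (K : Type*) where
  v : K → R
  x : K → K → R
  y : K → K → K → R

variable {R : Type*} [CommRing R] {K : Type*}

namespace MG

instance : Mul (MG R K) := ⟨fun a b => ⟨fun i => a.v i + b.v i,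
  fun i j => a.x i j + b.x i j + a.v i * b.v j,
  fun i j k => a.y i j k + b.y i j k + a.v i * b.x j k + a.x i j * b.v k⟩⟩
instance : One (MG R K) := ⟨⟨fun _ => 0, fun _ _ => 0, fun _ _ _ => 0⟩⟩
instance : Inv (MG R K) := ⟨fun a => ⟨fun i => -a.v i, fun i j => -a.x i j + a.v i * a.v j,
  fun i j k => -a.y i j k + a.v i * a.x j k + a.x i j * a.v k - a.v i * a.v j * a.v k⟩⟩

lemma mul_v (a b : MG R K) (i : K) : (a * b).v i = a.v i + b.v i := rfl
lemma mul_x (a b : MG R K) (i j : K) : (a * b).x i j = a.x i j + b.x i j + a.v i * b.v j := rfl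
lemma mul_y (a b : MG R K) (i j k : K) : (a * b).y i j k =
    a.y i j k + b.y i j k + a.v i * b.x j k + a.x i j * b.v k := rfl
lemma one_v (i : K) : (1 : MG R K).v i = 0 := rfl
lemma one_x (i j : K) : (1 : MG R K).x i j = 0 := rfl
lemma one_y (i j k : K) : (1 : MG R K).y i j k = 0 := rfl
lemma inv_v (a : MG R K) (i : K) : (a⁻¹).v i = -a.v i := rfl
lemma inv_x (a : MG R K) (i j : K) : (a⁻¹).x i j = -a.x i j + a.v i * a.v j := rfl
lemma inv_y (a : MG R K) (i j k : K) : (a⁻¹).y i j k =
    -a.y i j k + a.v i * a.x j k + a.x i j * a.v k - a.v i * a.v j * a.v k := rfl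

lemma ext' {a b : MG R K} (h1 : ∀ i, a.v i = b.v i) (h2 : ∀ i j, a.x i j = b.x i j)
    (h3 : ∀ i j k, a.y i j k = b.y i j k) : a = b :=
  MG.ext (funext h1) (funext fun i => funext (h2 i)) (funext fun i => funext fun j =>
    funext (h3 i j))

instance : Group (MG R K) := Group.ofLeftAxioms
  (fun a b c => by
    apply ext'
    · intro i; simp only [mul_v]; ring
    · intro i j; simp only [mul_v, mul_x]; ring
    · intro i j k; simp only [mul_v, mul_x, mul_y]; ring)
  (fun a => by
    apply ext'
    · intro i; simp only [mul_v, one_v]; ring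
    · intro i j; simp only [mul_x, one_v, one_x]; ring
    · intro i j k; simp only [mul_y, one_v, one_x, one_y]; ring)
  (fun a => by
    apply ext'
    · intro i; simp only [mul_v, inv_v, one_v]; ring
    · intro i j; simp only [mul_x, inv_v, inv_x, one_x]; ring
    · intro i j k; simp only [mul_y, inv_v, inv_x, inv_y, one_y]; ring)

instance [Finite R] [Finite K] : Finite (MG R K) := by
  have : Function.Injective (fun a : MG R K => (a.v, a.x, a.y)) := by
    rintro ⟨v, x, y⟩ ⟨v', x', y'⟩ h
    simp only [Prod.mk.injEq] at h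
    obtain ⟨rfl, rfl, rfl⟩ := h
    rfl
  exact Finite.of_injective _ this

end MG

section

variable [Fintype K]

lemma sum2 (a b c d : K → R) : ∑ k, ∑ l, (a k * b l) * (c k * d l) =
    (∑ k, a k * c k) * ∑ l, b l * d l := by
  rw [Finset.sum_mul_sum]
  exact Finset.sum_congr rfl fun k _ => Finset.sum_congr rfl fun l _ => by ring

lemma sum3 (a c : K → R) (b d : K → K → R) : ∑ k, ∑ l, ∑ q, (a k * b l q) * (c k * d l q) =
    (∑ k, a k * c k) * ∑ l, ∑ q, b l q * d l q := by
  rw [Finset.sum_mul_sum]
  refine Finset.sum_congr rfl fun k _ => Finset.sum_congr rfl fun l _ => ?_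
  rw [Finset.mul_sum]
  exact Finset.sum_congr rfl fun q _ => by ring

lemma sum3' (a c : K → R) (b d : K → K → R) : ∑ k, ∑ l, ∑ q, (b k l * a q) * (d k l * c q) =
    (∑ k, ∑ l, b k l * d k l) * ∑ q, a q * c q := by
  rw [Finset.sum_mul]
  refine Finset.sum_congr rfl fun k _ => ?_
  rw [Finset.sum_mul]
  refine Finset.sum_congr rfl fun l _ => ?_
  rw [Finset.mul_sum]
  exact Finset.sum_congr rfl fun q _ => by ring

/-- Substitution, degree one. -/
def sv (g : K → MG R K) (p : MG R K) (i : K) : R := ∑ k, p.v k * (g k).v i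

/-- Substitution, degree two. -/
def sx (g : K → MG R K) (p : MG R K) (i j : K) : R :=
  ∑ k, p.v k * (g k).x i j + ∑ k, ∑ l, p.x k l * ((g k).v i * (g l).v j)

/-- Substitution, degree three. -/
def sy (g : K → MG R K) (p : MG R K) (i j r : K) : R :=
  ∑ k, p.v k * (g k).y i j r +
    ∑ k, ∑ l, p.x k l * ((g k).v i * (g l).x j r + (g k).x i j * (g l).v r) +
    ∑ k, ∑ l, ∑ q, p.y k l q * ((g k).v i * (g l).v j * (g q).v r)

/-- Substitution of the series `g k` for `1 + k`. -/
def sb (g : K → MG R K) : MG R K →* MG R K where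
  toFun p := ⟨sv g p, sx g p, sy g p⟩
  map_one' := by
    apply MG.ext'
    · intro i
      simp [sv, MG.one_v]
    · intro i j
      simp [sx, MG.one_v, MG.one_x]
    · intro i j k
      simp [sy, MG.one_v, MG.one_x, MG.one_y]
  map_mul' p p' := by
    apply MG.ext'
    · intro i
      change sv g (p * p') i = sv g p i + sv g p' i
      simp only [sv, MG.mul_v, add_mul, Finset.sum_add_distrib]
    · intro i j
      change sx g (p * p') i j = sx g p i j + sx g p' i j + sv g p i * sv g p' j
      simp only [sx, sv, MG.mul_v, MG.mul_x, add_mul, Finset.sum_add_distrib]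
      rw [sum2 p.v p'.v (fun k => (g k).v i) (fun l => (g l).v j)]
      ring
    · intro i j r
      change sy g (p * p') i j r = sy g p i j r + sy g p' i j r + sv g p i * sx g p' j r +
        sx g p i j * sv g p' r
      simp only [sy, sx, sv, MG.mul_v, MG.mul_x, MG.mul_y, add_mul, mul_add,
        Finset.sum_add_distrib]
      have e1 := sum2 p.v p'.v (fun k => (g k).v i) (fun l => (g l).x j r)
      have e2 := sum2 p.v p'.v (fun k => (g k).x i j) (fun l => (g l).v r)
      have e3 := sum3 p.v (fun k => (g k).v i) p'.x (fun l q => (g l).v j * (g q).v r)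
      have e4 := sum3' p'.v (fun q => (g q).v r) p.x (fun k l => (g k).v i * (g l).v j)
      have e5 : ∀ k l q : K, (g k).v i * (g l).v j * (g q).v r =
          (g k).v i * ((g l).v j * (g q).v r) := fun k l q => mul_assoc _ _ _
      have e6 : ∑ k, ∑ l, ∑ q, p.v k * p'.x l q * ((g k).v i * (g l).v j * (g q).v r) =
          ∑ k, ∑ l, ∑ q, p.v k * p'.x l q * ((g k).v i * ((g l).v j * (g q).v r)) := by
        simp only [e5]
      linear_combination e1 + e2 + e3 + e4 + e6

lemma sb_v (g : K → MG R K) (p : MG R K) (i : K) : (sb g p).v i = ∑ k, p.v k * (g k).v i := rfl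
lemma sb_x (g : K → MG R K) (p : MG R K) (i j : K) : (sb g p).x i j =
    ∑ k, p.v k * (g k).x i j + ∑ k, ∑ l, p.x k l * ((g k).v i * (g l).v j) := rfl
lemma sb_y (g : K → MG R K) (p : MG R K) (i j r : K) : (sb g p).y i j r =
    ∑ k, p.v k * (g k).y i j r +
    ∑ k, ∑ l, p.x k l * ((g k).v i * (g l).x j r + (g k).x i j * (g l).v r) +
    ∑ k, ∑ l, ∑ q, p.y k l q * ((g k).v i * (g l).v j * (g q).v r) := rfl

end

section mu

variable (R) (K) [DecidableEq K]

/-- The variable `1 + k`. -/
def vr (k : K) : MG R K := ⟨fun i => if k = i then 1 else 0, fun _ _ => 0, fun _ _ _ => 0⟩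

/-- The Magnus representation. -/
def mu : FreeGroup K →* MG R K := FreeGroup.lift (vr R K)

lemma mu_of (k : K) : mu R K (FreeGroup.of k) = vr R K k := by simp [mu]

variable {R K} [Fintype K]

lemma sb_vr (g : K → MG R K) (k : K) : sb g (vr R K k) = g k := by
  apply MG.ext'
  · intro i
    rw [sb_v]
    simp [vr]
  · intro i j
    rw [sb_x]
    simp [vr]
  · intro i j r
    rw [sb_y]
    simp [vr]

/-- The images of the variables under an endomorphism of the free group. -/
def im (R : Type*) [CommRing R] (F : FreeGroup K →* FreeGroup K) (k : K) : MG R K :=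
  mu R K (F (FreeGroup.of k))

/-- Naturality. -/
theorem mu_nat (F : FreeGroup K →* FreeGroup K) (z : FreeGroup K) :
    mu R K (F z) = sb (im R F) (mu R K z) := by
  have h1 : (mu R K).comp F = (sb (im R F)).comp (mu R K) := by
    ext1 k
    rw [MonoidHom.comp_apply, MonoidHom.comp_apply, mu_of, sb_vr, im]
  exact DFunLike.congr_fun h1 z

end mu

end Pool.Agent.H.MP_59b15d_al.H40T
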