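/-
The invariant `th`, a trace of the third order part of the action on the free group; it is a
homomorphism modulo three up to the symplectic form of the shifts.
-/
import Pool.Agent.H.MP_59b15d_al.h40th.Alg
import Pool.Agent.H.MP_59b15d_al.h40th.Mg
import Pool.Agent.H.MP_59b15d_al.h60g.Ba
import Pool.Agent.H.MP_59b15d_al.h73e.Defs
import Pool.Agent.H.MP_59b15d_al.h93c.Heis

set_option autoImplicit false

namespace Pool.Agent.H.MP_59b15d_al.H40T

open Pool.Agent.H.MP_59b15d_al.SP Pool.Agent.H.MP_59b15d_al.H93C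
open Pool.MP_59b15d_al.H24T Pool.MP_59b15d_al.H76R Pool.MP_59b15d_al.H73E
open Pool.MP_59b15d_al.H60G
open FreeGroup (of)

variable {m : ℕ}

/-- Coordinates. -/
def crd (u : V m) : Fin m ⊕ Fin m → ℤ := Sum.elim (fun i => (u i).1) (fun i => (u i).2)

lemma crd_l (u : V m) (i : Fin m) : crd u (Sum.inl i) = (u i).1 := rfl
lemma crd_r (u : V m) (i : Fin m) : crd u (Sum.inr i) = (u i).2 := rfl
lemma crd_add (u v : V m) (k : Fin m ⊕ Fin m) : crd (u + v) k = crd u k + crd v k := by
  rcases k with k | k <;> rfl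
lemma crd_neg (u : V m) (k : Fin m ⊕ Fin m) : crd (-u) k = -crd u k := by
  rcases k with k | k <;> rfl
lemma crd_zero (k : Fin m ⊕ Fin m) : crd (0 : V m) k = 0 := by
  rcases k with k | k <;> rfl

lemma crd_e (k : Fin m) (i : Fin m ⊕ Fin m) :
    crd (e k) i = if (Sum.inl k : Fin m ⊕ Fin m) = i then 1 else 0 := by
  rcases i with i | i
  · by_cases h : k = i
    · subst h
      simp [crd, e]
    · simp [crd, e, h, Pi.single_apply, Ne.symm h]
  · by_cases h : i = k
    · subst h
      simp [crd, e]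
    · simp [crd, e, Pi.single_apply, h]

lemma crd_f (k : Fin m) (i : Fin m ⊕ Fin m) :
    crd (f k) i = if (Sum.inr k : Fin m ⊕ Fin m) = i then 1 else 0 := by
  rcases i with i | i
  · by_cases h : i = k
    · subst h
      simp [crd, f]
    · simp [crd, f, Pi.single_apply, h]
  · by_cases h : k = i
    · subst h
      simp [crd, f]
    · simp [crd, f, h, Pi.single_apply, Ne.symm h]

variable (R : Type*) [CommRing R]

/-- The Magnus representation of the free group of the surface. -/
def M (z : Fr m) : MG R (Fin m ⊕ Fin m) := mu R (Fin m ⊕ Fin m) z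

lemma M_one : M R (1 : Fr m) = 1 := map_one _
lemma M_mul (y z : Fr m) : M R (y * z) = M R y * M R z := map_mul _ _ _
lemma M_inv (z : Fr m) : M R z⁻¹ = (M R z)⁻¹ := map_inv _ _
lemma M_of (k : Fin m ⊕ Fin m) : M R (of k) = vr R (Fin m ⊕ Fin m) k := mu_of R _ k

lemma M_v (z : Fr m) (k : Fin m ⊕ Fin m) : (M R z).v k = (crd (clr z) k : R) := by
  induction z using fr_induction with
  | h1 => rw [M_one, clr_one, crd_zero, MG.one_v, Int.cast_zero]
  | ha i =>
    rw [M_of, clr_a, crd_e]
    simp [vr]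
  | hb i =>
    rw [M_of, clr_b, crd_f]
    simp [vr]
  | hm x y hx hy => rw [M_mul, MG.mul_v, hx, hy, clr_mul, crd_add, Int.cast_add]
  | hi x hx => rw [M_inv, MG.inv_v, hx, clr_inv, crd_neg, Int.cast_neg]

/-- The shuffle relation in degree two. -/
lemma M_sh (z : Fr m) (i j : Fin m ⊕ Fin m) : (M R z).x i j + (M R z).x j i =
    (M R z).v i * (M R z).v j - if i = j then (M R z).v i else 0 := by
  induction z using fr_induction with
  | h1 => simp [M_one, MG.one_v, MG.one_x]
  | ha k =>
    rw [M_of]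
    simp only [vr]
    split_ifs <;> simp_all
  | hb k =>
    rw [M_of]
    simp only [vr]
    split_ifs <;> simp_all
  | hm x y hx hy =>
    rw [M_mul, MG.mul_x, MG.mul_x, MG.mul_v, MG.mul_v]
    split_ifs at hx hy ⊢ <;> linear_combination hx + hy
  | hi x hx =>
    rw [M_inv, MG.inv_x, MG.inv_x, MG.inv_v, MG.inv_v]
    split_ifs at hx ⊢ <;> linear_combination -hx

lemma w_om (u v : V m) : ∑ j, ∑ r, w R j r * ((crd u j : R) * (crd v r : R)) = (om u v : R) := by
  rw [om]
  push_cast
  rw [Fintype.sum_sum_type, ← Finset.sum_add_distrib]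
  refine Finset.sum_congr rfl fun i _ => ?_
  rw [Fintype.sum_sum_type, Fintype.sum_sum_type]
  simp [w, crd]
  ring

/-- The contraction of the degree two part. -/
lemma M_s (z : Fr m) : ∑ j, ∑ r, w R j r * (M R z).x j r =
    2 * ((hs z).s : R) + (co (clr z) (clr z) : R) := by
  induction z using fr_induction with
  | h1 =>
    have e1 : ∀ j r : Fin m ⊕ Fin m, (1 : MG R (Fin m ⊕ Fin m)).x j r = 0 := fun _ _ => rfl
    have e2 : ((1 : Hs m)).s = 0 := rfl
    rw [M_one, map_one, clr_one, co_zero_left, e2]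
    simp [e1]
  | ha k =>
    have e1 : co (e k : V m) (e k) = 0 := by
      have := om_e_e k k
      simp only [co]
      refine Finset.sum_eq_zero fun i _ => ?_
      by_cases h : i = k
      · subst h
        simp [e]
      · simp [e, Pi.single_apply, h]
    rw [M_of, clr_a, hs_a, e1]
    simp [vr]
  | hb k =>
    have e1 : co (f k : V m) (f k) = 0 := by
      simp only [co]
      refine Finset.sum_eq_zero fun i _ => ?_
      by_cases h : i = k
      · subst h
        simp [f]
      · simp [f, Pi.single_apply, h]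
    rw [M_of, clr_b, hs_b, e1]
    simp [vr]
  | hm x y hx hy =>
    have e1 : ∑ j, ∑ r, w R j r * (M R (x * y)).x j r =
        ∑ j, ∑ r, w R j r * (M R x).x j r + ∑ j, ∑ r, w R j r * (M R y).x j r +
        ∑ j, ∑ r, w R j r * ((crd (clr x) j : R) * (crd (clr y) r : R)) := by
      simp only [← Finset.sum_add_distrib]
      refine Finset.sum_congr rfl fun j _ => Finset.sum_congr rfl fun r _ => ?_
      rw [M_mul, MG.mul_x, ← M_v, ← M_v]
      ring
    rw [e1, hx, hy, w_om, map_mul, Hs.mul_s, clr_mul, co_add_left, co_add_right, co_add_right,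
      om_eq_co]
    change _ = 2 * (((hs x).s + (hs y).s - co (clr x) (clr y) : ℤ) : R) + _
    push_cast
    ring
  | hi x hx =>
    have e1 : ∑ j, ∑ r, w R j r * (M R x⁻¹).x j r =
        -∑ j, ∑ r, w R j r * (M R x).x j r +
        ∑ j, ∑ r, w R j r * ((crd (clr x) j : R) * (crd (clr x) r : R)) := by
      rw [← Finset.sum_neg_distrib, ← Finset.sum_add_distrib]
      refine Finset.sum_congr rfl fun j _ => ?_
      rw [← Finset.sum_neg_distrib, ← Finset.sum_add_distrib]
      refine Finset.sum_congr rfl fun r _ => ?_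
      rw [M_inv, MG.inv_x, ← M_v, ← M_v]
      ring
    have e2 : om (clr x) (clr x) = 0 := by rw [om_eq_co, sub_self]
    rw [e1, hx, w_om, map_inv, Hs.inv_s, clr_inv, co_neg_left, co_neg_right, e2]
    change _ = 2 * ((-(hs x).s - co (clr x) (clr x) : ℤ) : R) + _
    push_cast
    ring

/-- The degree two part of a commutator. -/
lemma comm_x {K : Type*} (g h : MG R K) (p q : K) : (g * h * g⁻¹ * h⁻¹).x p q =
    g.v p * h.v q - h.v p * g.v q := by
  simp only [MG.mul_x, MG.mul_v, MG.inv_x, MG.inv_v]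
  ring

lemma comm_v {K : Type*} (g h : MG R K) (p : K) : (g * h * g⁻¹ * h⁻¹).v p = 0 := by
  simp only [MG.mul_v, MG.inv_v]
  ring

/-- The handle of an index. -/
def ix : Fin m ⊕ Fin m → ℕ := Sum.elim (fun i => (i : ℕ)) (fun i => (i : ℕ))

lemma kk_x (i : Fin m) (p q : Fin m ⊕ Fin m) :
    (M R (kk i)).x p q = if ix p = i then w R p q else 0 := by
  rw [kk, M_mul, M_mul, M_mul, M_inv, M_inv, comm_x, M_of, M_of]
  rcases p with p | p <;> rcases q with q | q
  · simp [vr, w]
  · by_cases h1 : p = i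
    · subst h1
      simp [vr, w, ix]
    · have h2 : (p : ℕ) ≠ i := fun h => h1 (Fin.ext h)
      simp [vr, w, ix, h2, Ne.symm h1]
  · by_cases h1 : p = i
    · subst h1
      by_cases h2 : p = q
      · simp [vr, w, ix, h2]
      · simp [vr, w, ix, h2]
    · have h2 : (p : ℕ) ≠ i := fun h => h1 (Fin.ext h)
      simp [vr, w, ix, h2, Ne.symm h1]
  · simp [vr, w]

lemma dl_vx (n : ℕ) (hn : n ≤ m) : (∀ k, (M R (dl n : Fr m)).v k = 0) ∧
    ∀ p q, (M R (dl n : Fr m)).x p q = if ix p < n then w R p q else 0 := by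
  induction n with
  | zero =>
    rw [dl, M_one]
    exact ⟨fun _ => rfl, fun p q => by rw [MG.one_x, if_neg (Nat.not_lt_zero _)]⟩
  | succ n ih =>
    obtain ⟨h1, h2⟩ := ih (by omega)
    rw [dl_succ n hn, M_mul]
    constructor
    · intro k
      rw [MG.mul_v, h1, kk, M_mul, M_mul, M_mul, M_inv, M_inv, comm_v, add_zero]
    · intro p q
      rw [MG.mul_x, h1, zero_mul, add_zero, h2, kk_x]
      change _ + (if ix p = n then w R p q else 0) = _
      by_cases h3 : ix p < n
      · rw [if_pos h3, if_neg (by omega), if_pos (by omega), add_zero]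
      · by_cases h4 : ix p = n
        · rw [if_neg h3, if_pos h4, if_pos (by omega), zero_add]
        · rw [if_neg h3, if_neg h4, if_neg (by omega), add_zero]

lemma dl_v (k : Fin m ⊕ Fin m) : (M R (dl m : Fr m)).v k = 0 := (dl_vx R m le_rfl).1 k

lemma dl_x (p q : Fin m ⊕ Fin m) : (M R (dl m : Fr m)).x p q = w R p q := by
  rw [(dl_vx R m le_rfl).2, if_pos]
  rcases p with p | p <;> exact p.2

/-- The image of the generators. -/
abbrev mi (F : MulAut (Fr m)) (k : Fin m ⊕ Fin m) : MG R (Fin m ⊕ Fin m) := M R (F (of k))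

lemma M_F (F : MulAut (Fr m)) (z : Fr m) : M R (F z) = sb (mi R F) (M R z) :=
  mu_nat F.toMonoidHom z

variable {R}

/-- Trivial in degree one. -/
def T1 (g : Fin m ⊕ Fin m → MG R (Fin m ⊕ Fin m)) : Prop :=
  ∀ k i, (g k).v i = if k = i then 1 else 0

lemma T1.sv {g : Fin m ⊕ Fin m → MG R (Fin m ⊕ Fin m)} (h : T1 g)
    (p : MG R (Fin m ⊕ Fin m)) (i : Fin m ⊕ Fin m) : (sb g p).v i = p.v i := by
  rw [sb_v]
  simp only [h _ _, mul_ite, mul_one, mul_zero, Finset.sum_ite_eq', Finset.mem_univ, if_true]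

lemma T1.sx {g : Fin m ⊕ Fin m → MG R (Fin m ⊕ Fin m)} (h : T1 g)
    (p : MG R (Fin m ⊕ Fin m)) (i j : Fin m ⊕ Fin m) :
    (sb g p).x i j = ∑ k, p.v k * (g k).x i j + p.x i j := by
  rw [sb_x]
  simp only [h _ _, mul_ite, mul_one, mul_zero, Finset.sum_ite_eq', Finset.mem_univ, if_true]

lemma T1.sy {g : Fin m ⊕ Fin m → MG R (Fin m ⊕ Fin m)} (h : T1 g)
    (p : MG R (Fin m ⊕ Fin m)) (i j r : Fin m ⊕ Fin m) :
    (sb g p).y i j r = ∑ k, p.v k * (g k).y i j r + (∑ l, p.x i l * (g l).x j r +
      ∑ k, p.x k r * (g k).x i j) + p.y i j r := by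
  rw [sb_y]
  have e1 : ∑ k, ∑ l, p.x k l * ((g k).v i * (g l).x j r + (g k).x i j * (g l).v r) =
      ∑ l, p.x i l * (g l).x j r + ∑ k, p.x k r * (g k).x i j := by
    have e2 : ∀ k, ∑ l, p.x k l * ((g k).v i * (g l).x j r + (g k).x i j * (g l).v r) =
        (if k = i then ∑ l, p.x k l * (g l).x j r else 0) + p.x k r * (g k).x i j := by
      intro k
      simp only [h _ _, mul_add, Finset.sum_add_distrib]
      congr 1
      · by_cases hk : k = i
        · simp [hk]
        · simp [hk]
      · simp only [mul_ite, mul_one, mul_zero, Finset.sum_ite_eq', Finset.mem_univ, if_true]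
    simp only [e2, Finset.sum_add_distrib, Finset.sum_ite_eq', Finset.mem_univ, if_true]
  have e3 : ∑ k, ∑ l, ∑ q, p.y k l q * ((g k).v i * (g l).v j * (g q).v r) = p.y i j r := by
    simp only [h _ _, mul_ite, mul_one, mul_zero, Finset.sum_ite_eq', Finset.mem_univ, if_true]
  rw [e1, e3]

variable (R)

lemma T1_mi {F : MulAut (Fr m)} (hF : ∀ z, clr (F z) = clr z) : T1 (mi R F) := by
  intro k i
  rw [mi, M_v, hF, ← M_v, M_of]
  rfl

/-- The degree two part of an automorphism. -/
abbrev tt (F : MulAut (Fr m)) (k i j : Fin m ⊕ Fin m) : R := (mi R F k).x i j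

/-- The symmetry of the degree two part (Johnson). -/
lemma sy_tt (h3 : (3 : R) = 0) {F : MulAut (Fr m)} (hF : ∀ z, clr (F z) = clr z)
    (hd : F (dl m) = dl m) : Sy (tt R F) := by
  have hT := T1_mi R hF
  have hs : ∀ l j r, tt R F l j r + tt R F l r j = 0 := by
    intro l j r
    rw [tt, tt, M_sh, hT, hT]
    split_ifs <;> simp_all
  refine ⟨?_, ?_, ?_⟩
  · intro i j r
    have h1 := M_F R F (dl m)
    rw [hd] at h1
    have h2 := congrArg (fun q : MG R (Fin m ⊕ Fin m) => q.y i j r) h1
    change (M R (dl m)).y i j r = (sb (mi R F) (M R (dl m))).y i j r at h2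
    rw [hT.sy] at h2
    simp only [dl_v, dl_x, zero_mul, Finset.sum_const_zero, zero_add] at h2
    have h4 : ∑ k, w R k r * (mi R F k).x i j = -∑ l, w R r l * tt R F l i j := by
      rw [← Finset.sum_neg_distrib]
      exact Finset.sum_congr rfl fun k _ => by rw [w_swap r k]; ring
    rw [h4] at h2
    linear_combination -h2
  · intro l j r
    linear_combination hs l j r
  · intro l j
    linear_combination (tt R F l j j) * h3 - hs l j j

/-- The trace. -/
def th (F : MulAut (Fr m)) : R := ∑ k, ∑ j, ∑ r, w R j r * (mi R F k).y k j r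

lemma mi_mul (F G : MulAut (Fr m)) (k : Fin m ⊕ Fin m) :
    mi R (F * G) k = sb (mi R F) (mi R G k) := by
  rw [mi, MulAut.mul_apply, M_F]

/-- The contraction of the degree two part is given by the shift. -/
lemma tt_s {F : MulAut (Fr m)} (hF : ∀ z, clr (F z) = clr z) {u : V m}
    (hu : ∀ z, hs (F z) = hs z * Hs.z ^ om u (clr z)) (l : Fin m ⊕ Fin m) :
    ∑ j, ∑ r, w R j r * tt R F l j r = 2 * (om u (clr (of l : Fr m)) : R) := by
  rw [M_s R (F (of l)), hF, hu]
  have e1 : ((hs (of l : Fr m)) * Hs.z ^ om u (clr (of l : Fr m))).s =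
      (hs (of l : Fr m)).s + om u (clr (of l : Fr m)) := by
    rw [Hs.z_zpow, Hs.mul_s, co_zero_right, sub_zero]
  have e2 : (hs (of l : Fr m)).s = 0 ∧ co (clr (of l : Fr m)) (clr (of l : Fr m)) = 0 := by
    rcases l with l | l
    · rw [hs_a, clr_a]
      refine ⟨rfl, ?_⟩
      simp only [co]
      refine Finset.sum_eq_zero fun i _ => ?_
      by_cases h : i = l
      · subst h
        simp [e]
      · simp [e, Pi.single_apply, h]
    · rw [hs_b, clr_b]
      refine ⟨rfl, ?_⟩
      simp only [co]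
      refine Finset.sum_eq_zero fun i _ => ?_
      by_cases h : i = l
      · subst h
        simp [f]
      · simp [f, Pi.single_apply, h]
  rw [e1, e2.1, e2.2]
  push_cast
  ring

/-- **The cocycle formula.** -/
theorem th_mul (h3 : (3 : R) = 0) {F G : MulAut (Fr m)} (hF : ∀ z, clr (F z) = clr z)
    (hG : ∀ z, clr (G z) = clr z) (hFd : F (dl m) = dl m) (hGd : G (dl m) = dl m) {u v : V m}
    (hu : ∀ z, hs (F z) = hs z * Hs.z ^ om u (clr z))
    (hv : ∀ z, hs (G z) = hs z * Hs.z ^ om v (clr z)) :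
    th R (F * G) = th R F + th R G + (om u v : R) := by
  have tF := T1_mi R hF
  have tG := T1_mi R hG
  have sF := sy_tt R h3 hF hFd
  have sG := sy_tt R h3 hG hGd
  have e1 : ∀ k j r, (mi R (F * G) k).y k j r = (mi R F k).y k j r +
      (∑ l, tt R G k k l * tt R F l j r + ∑ p, tt R G k p r * tt R F p k j) +
      (mi R G k).y k j r := by
    intro k j r
    rw [mi_mul, tF.sy]
    have e2 : ∑ p, (mi R G k).v p * (mi R F p).y k j r = (mi R F k).y k j r := by
      simp only [tG _ _, ite_mul, one_mul, zero_mul, Finset.sum_ite_eq, Finset.mem_univ, if_true]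
    rw [e2]
  have e3 : th R (F * G) = th R F + th R G +
      ∑ k, ∑ j, ∑ r, w R j r * ∑ l, tt R G k k l * tt R F l j r +
      ∑ k, ∑ j, ∑ r, w R j r * ∑ p, tt R G k p r * tt R F p k j := by
    simp only [th, ← Finset.sum_add_distrib]
    refine Finset.sum_congr rfl fun k _ => Finset.sum_congr rfl fun j _ =>
      Finset.sum_congr rfl fun r _ => ?_
    rw [e1]
    ring
  have e4 : ∑ k, ∑ j, ∑ r, w R j r * ∑ p, tt R G k p r * tt R F p k j = 0 :=
    Sy.total h3 sG sF
  have e5 : ∑ k, ∑ j, ∑ r, w R j r * ∑ l, tt R G k k l * tt R F l j r =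
      ∑ l, (∑ k, tt R G k k l) * ∑ j, ∑ r, w R j r * tt R F l j r := by
    have d1 : ∀ k, ∑ j, ∑ r, w R j r * ∑ l, tt R G k k l * tt R F l j r =
        ∑ l, tt R G k k l * ∑ j, ∑ r, w R j r * tt R F l j r := by
      intro k
      simp only [Finset.mul_sum]
      rw [Finset.sum_comm' (s := Finset.univ) (t := fun _ => Finset.univ)
        (t' := Finset.univ) (s' := fun _ => Finset.univ) (by simp)]
      rw [Finset.sum_comm]
      have d2 : ∀ j, ∑ r, ∑ l, w R j r * (tt R G k k l * tt R F l j r) =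
          ∑ l, ∑ r, tt R G k k l * (w R j r * tt R F l j r) := by
        intro j
        rw [Finset.sum_comm]
        exact Finset.sum_congr rfl fun l _ => Finset.sum_congr rfl fun r _ => by ring
      simp only [d2]
      rw [Finset.sum_comm]
    simp only [d1, Finset.sum_mul]
    rw [Finset.sum_comm]
  have e6 : ∀ l, ∑ k, tt R G k k l = ∑ q, w R l q * (2 * (om v (clr (of q : Fr m)) : R)) := by
    intro l
    rw [sG.trace]
    exact Finset.sum_congr rfl fun q _ => by rw [tt_s R hG hv]
  have e7 : ∑ l, (∑ k, tt R G k k l) * ∑ j, ∑ r, w R j r * tt R F l j r =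
      4 * (om u v : R) := by
    simp only [e6, tt_s R hF hu]
    rw [Fintype.sum_sum_type, ← Finset.sum_add_distrib, om]
    push_cast
    rw [Finset.mul_sum]
    refine Finset.sum_congr rfl fun i _ => ?_
    rw [Fintype.sum_sum_type, Fintype.sum_sum_type]
    simp only [clr_a, clr_b, om_e, om_f, w, zero_mul, Finset.sum_const_zero, zero_add, add_zero,
      ite_mul, one_mul, neg_mul, Finset.sum_ite_eq, Finset.mem_univ, if_true]
    push_cast
    ring
  rw [e3, e4, e5, e7]
  linear_combination (om u v : R) * h3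

end Pool.Agent.H.MP_59b15d_al.H40T
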