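/-
Invariance of the trace under conjugation, its values on lifts of the identity.
-/
import Pool.Agent.H.MP_59b15d_al.h40th.Th
import Pool.Agent.H.MP_59b15d_al.h93c.LemK

set_option autoImplicit false

namespace Pool.Agent.H.MP_59b15d_al.H40T

open Pool.Agent.H.MP_59b15d_al.SP Pool.Agent.H.MP_59b15d_al.H93C
open Pool.MP_59b15d_al.H24T Pool.MP_59b15d_al.H76R Pool.MP_59b15d_al.H73E
open Pool.MP_59b15d_al.H60G
open FreeGroup (of)

variable {m : ℕ} (R : Type*) [CommRing R]

section basic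

variable {R}

lemma T1.sumv {g : Fin m ⊕ Fin m → MG R (Fin m ⊕ Fin m)} (h : T1 g) (k : Fin m ⊕ Fin m)
    (c : Fin m ⊕ Fin m → R) : ∑ p, (g k).v p * c p = c k := by
  simp only [h _ _, ite_mul, one_mul, zero_mul, Finset.sum_ite_eq, Finset.mem_univ, if_true]

end basic

/-- The degree two part is additive. -/
lemma tt_mul {F G : MulAut (Fr m)} (hF : ∀ z, clr (F z) = clr z) (hG : ∀ z, clr (G z) = clr z)
    (k i j : Fin m ⊕ Fin m) : tt R (F * G) k i j = tt R F k i j + tt R G k i j := by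
  rw [tt, mi_mul, (T1_mi R hF).sx, (T1_mi R hG).sumv k (fun p => (mi R F p).x i j)]

lemma tt_one (k i j : Fin m ⊕ Fin m) : tt R (1 : MulAut (Fr m)) k i j = 0 := by
  change (M R (of k)).x i j = 0
  rw [M_of]
  rfl

lemma clr_inv_aut {F : MulAut (Fr m)} (hF : ∀ z, clr (F z) = clr z) (z : Fr m) :
    clr (F⁻¹ z) = clr z := by
  rw [← hF (F⁻¹ z), MulAut.apply_inv_self]

lemma tt_inv {F : MulAut (Fr m)} (hF : ∀ z, clr (F z) = clr z) (k i j : Fin m ⊕ Fin m) :
    tt R F⁻¹ k i j = -tt R F k i j := by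
  have h1 := tt_mul R hF (clr_inv_aut hF) k i j
  rw [mul_inv_cancel, tt_one] at h1
  linear_combination -h1

/-- The trace is additive if the degree two part of one factor vanishes. -/
lemma th_mul_left {F G : MulAut (Fr m)} (hF : ∀ z, clr (F z) = clr z)
    (hG : ∀ z, clr (G z) = clr z) (h0 : ∀ k i j, tt R F k i j = 0) :
    th R (F * G) = th R F + th R G := by
  have tF := T1_mi R hF
  have tG := T1_mi R hG
  simp only [th, ← Finset.sum_add_distrib]
  refine Finset.sum_congr rfl fun k _ => Finset.sum_congr rfl fun j _ =>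
    Finset.sum_congr rfl fun r _ => ?_
  rw [mi_mul, tF.sy, tG.sumv k (fun p => (mi R F p).y k j r)]
  have e1 : ∀ k i j, (mi R F k).x i j = 0 := h0
  simp only [e1, mul_zero, Finset.sum_const_zero, add_zero]
  ring

lemma th_mul_right {F G : MulAut (Fr m)} (hF : ∀ z, clr (F z) = clr z)
    (hG : ∀ z, clr (G z) = clr z) (h0 : ∀ k i j, tt R G k i j = 0) :
    th R (F * G) = th R F + th R G := by
  have tF := T1_mi R hF
  have tG := T1_mi R hG
  simp only [th, ← Finset.sum_add_distrib]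
  refine Finset.sum_congr rfl fun k _ => Finset.sum_congr rfl fun j _ =>
    Finset.sum_congr rfl fun r _ => ?_
  rw [mi_mul, tF.sy, tG.sumv k (fun p => (mi R F p).y k j r)]
  have e1 : ∀ k i j, (mi R G k).x i j = 0 := h0
  simp only [e1, zero_mul, Finset.sum_const_zero, add_zero]
  ring

lemma th_one : th R (1 : MulAut (Fr m)) = 0 := by
  rw [th]
  refine Finset.sum_eq_zero fun k _ => Finset.sum_eq_zero fun j _ => Finset.sum_eq_zero fun r _ => ?_
  change _ * (M R (of k)).y k j r = 0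
  rw [M_of]
  change _ * (0 : R) = 0
  rw [mul_zero]

/-- Automorphisms which are trivial modulo the kernel of the Magnus representation. -/
lemma th_of_M {F : MulAut (Fr m)} (hF : ∀ z, M R (F z) = M R z) :
    (∀ k i j, tt R F k i j = 0) ∧ th R F = 0 := by
  have e1 : ∀ k, mi R F k = vr R _ k := fun k => by rw [mi, hF, M_of]
  constructor
  · intro k i j
    rw [tt, e1]
    rfl
  · rw [th]
    refine Finset.sum_eq_zero fun k _ => Finset.sum_eq_zero fun j _ =>
      Finset.sum_eq_zero fun r _ => ?_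
    rw [e1]
    change _ * (0 : R) = 0
    rw [mul_zero]

/-! ### Conjugation -/

lemma om_w (b c : Fin m ⊕ Fin m) :
    (om (clr (of b : Fr m)) (clr (of c : Fr m)) : R) = w R b c := by
  rw [← w_om]
  have e1 : ∀ (b j : Fin m ⊕ Fin m), (crd (clr (of b : Fr m)) j : R) = if b = j then 1 else 0 := by
    intro b j
    rw [← M_v, M_of]
    rfl
  simp only [e1, ite_mul, one_mul, zero_mul, mul_ite, mul_one, mul_zero, Finset.sum_ite_eq,
    Finset.mem_univ, if_true]

lemma w_vv {K : MulAut (Fr m)} (hK : K ∈ Sym m) (b c : Fin m ⊕ Fin m) :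
    ∑ j, ∑ r, w R j r * ((mi R K b).v j * (mi R K c).v r) = w R b c := by
  have e1 : ∀ (b j : Fin m ⊕ Fin m), (mi R K b).v j = (crd (clr (K (of b : Fr m))) j : R) :=
    fun b j => M_v R _ _
  simp only [e1]
  rw [w_om, hK, om_w]

lemma v_inv (K : MulAut (Fr m)) (a p : Fin m ⊕ Fin m) :
    ∑ k, (mi R K a).v k * (mi R K⁻¹ k).v p = if a = p then 1 else 0 := by
  have h1 := M_F R K⁻¹ (K (of a))
  rw [MulAut.inv_apply_self] at h1
  have h2 := congrArg (fun q : MG R (Fin m ⊕ Fin m) => q.v p) h1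
  change (M R (of a)).v p = (sb (mi R K⁻¹) (mi R K a)).v p at h2
  rw [sb_v, M_of] at h2
  rw [← h2]
  rfl

/-- The degree two part of a conjugate. -/
lemma tt_conj {F : MulAut (Fr m)} (hF : ∀ z, clr (F z) = clr z) (K : MulAut (Fr m))
    (k i j : Fin m ⊕ Fin m) : tt R (K * F * K⁻¹) k i j =
    ∑ a, ∑ b, (∑ p, (mi R K⁻¹ k).v p * tt R F p a b) * ((mi R K a).v i * (mi R K b).v j) := by
  have tF := T1_mi R hF
  have h1 : mi R (K * F * K⁻¹) k = sb (mi R K) (sb (mi R F) (mi R K⁻¹ k)) := by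
    rw [mul_assoc, mi_mul, mi_mul]
  have h2 : sb (mi R K) (mi R K⁻¹ k) = vr R _ k := by
    rw [← mi_mul, mul_inv_cancel]
    exact M_of R k
  have h3 := congrArg (fun q : MG R (Fin m ⊕ Fin m) => q.x i j) h2
  change (sb (mi R K) (mi R K⁻¹ k)).x i j = 0 at h3
  rw [sb_x] at h3
  rw [tt, h1, sb_x]
  simp only [tF.sv, tF.sx, add_mul, Finset.sum_add_distrib]
  linear_combination h3

/-- The degree three part of a conjugate. -/
lemma y_conj {F : MulAut (Fr m)} (hF : ∀ z, clr (F z) = clr z) (h0 : ∀ k i j, tt R F k i j = 0)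
    (K : MulAut (Fr m)) (k i j r : Fin m ⊕ Fin m) : (mi R (K * F * K⁻¹) k).y i j r =
    ∑ a, ∑ b, ∑ c, (∑ p, (mi R K⁻¹ k).v p * (mi R F p).y a b c) *
      ((mi R K a).v i * (mi R K b).v j * (mi R K c).v r) := by
  have tF := T1_mi R hF
  have e0 : ∀ k i j, (mi R F k).x i j = 0 := h0
  have h1 : mi R (K * F * K⁻¹) k = sb (mi R K) (sb (mi R F) (mi R K⁻¹ k)) := by
    rw [mul_assoc, mi_mul, mi_mul]
  have h2 : sb (mi R K) (mi R K⁻¹ k) = vr R _ k := by
    rw [← mi_mul, mul_inv_cancel]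
    exact M_of R k
  have h3 := congrArg (fun q : MG R (Fin m ⊕ Fin m) => q.y i j r) h2
  change (sb (mi R K) (mi R K⁻¹ k)).y i j r = 0 at h3
  rw [sb_y] at h3
  rw [h1, sb_y]
  simp only [tF.sv, tF.sx, tF.sy, e0, mul_zero, Finset.sum_const_zero, zero_add, add_zero,
    add_mul, Finset.sum_add_distrib]
  linear_combination h3

/-- **Invariance.** -/
theorem th_conj {F : MulAut (Fr m)} (hF : ∀ z, clr (F z) = clr z)
    (h0 : ∀ k i j, tt R F k i j = 0) {K : MulAut (Fr m)} (hK : K ∈ Sym m) :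
    th R (K * F * K⁻¹) = th R F := by
  have e1 : ∀ k j r, w R j r * (mi R (K * F * K⁻¹) k).y k j r =
      ∑ a, ∑ b, ∑ c, ∑ p, ((mi R K a).v k * (mi R K⁻¹ k).v p) * ((mi R F p).y a b c *
        (w R j r * ((mi R K b).v j * (mi R K c).v r))) := by
    intro k j r
    rw [y_conj R hF h0, Finset.mul_sum]
    refine Finset.sum_congr rfl fun a _ => ?_
    rw [Finset.mul_sum]
    refine Finset.sum_congr rfl fun b _ => ?_
    rw [Finset.mul_sum]
    refine Finset.sum_congr rfl fun c _ => ?_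
    rw [Finset.sum_mul, Finset.mul_sum]
    exact Finset.sum_congr rfl fun p _ => by ring
  -- sum over `j` and `r`
  have e2 : ∀ k, ∑ j, ∑ r, w R j r * (mi R (K * F * K⁻¹) k).y k j r =
      ∑ a, ∑ b, ∑ c, ∑ p, ((mi R K a).v k * (mi R K⁻¹ k).v p) * ((mi R F p).y a b c * w R b c) := by
    intro k
    simp only [e1]
    have c1 : ∀ (T : Fin m ⊕ Fin m → Fin m ⊕ Fin m → Fin m ⊕ Fin m → Fin m ⊕ Fin m →
        Fin m ⊕ Fin m → Fin m ⊕ Fin m → R),
        ∑ j, ∑ r, ∑ a, ∑ b, ∑ c, ∑ p, T j r a b c p =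
        ∑ a, ∑ b, ∑ c, ∑ p, ∑ j, ∑ r, T j r a b c p := by
      intro T
      have d1 : ∀ j, ∑ r, ∑ a, ∑ b, ∑ c, ∑ p, T j r a b c p =
          ∑ a, ∑ b, ∑ c, ∑ p, ∑ r, T j r a b c p := by
        intro j
        rw [Finset.sum_comm]
        refine Finset.sum_congr rfl fun a _ => ?_
        rw [Finset.sum_comm]
        refine Finset.sum_congr rfl fun b _ => ?_
        rw [Finset.sum_comm]
        refine Finset.sum_congr rfl fun c _ => ?_
        rw [Finset.sum_comm]
      simp only [d1]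
      rw [Finset.sum_comm]
      refine Finset.sum_congr rfl fun a _ => ?_
      rw [Finset.sum_comm]
      refine Finset.sum_congr rfl fun b _ => ?_
      rw [Finset.sum_comm]
      refine Finset.sum_congr rfl fun c _ => ?_
      rw [Finset.sum_comm]
    rw [c1]
    refine Finset.sum_congr rfl fun a _ => Finset.sum_congr rfl fun b _ =>
      Finset.sum_congr rfl fun c _ => Finset.sum_congr rfl fun p _ => ?_
    simp only [← Finset.mul_sum]
    rw [w_vv R hK]
  rw [th]
  simp only [e2]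
  have c2 : ∀ (T : Fin m ⊕ Fin m → Fin m ⊕ Fin m → Fin m ⊕ Fin m → Fin m ⊕ Fin m →
      Fin m ⊕ Fin m → R),
      ∑ k, ∑ a, ∑ b, ∑ c, ∑ p, T k a b c p = ∑ a, ∑ b, ∑ c, ∑ p, ∑ k, T k a b c p := by
    intro T
    rw [Finset.sum_comm]
    refine Finset.sum_congr rfl fun a _ => ?_
    rw [Finset.sum_comm]
    refine Finset.sum_congr rfl fun b _ => ?_
    rw [Finset.sum_comm]
    refine Finset.sum_congr rfl fun c _ => ?_
    rw [Finset.sum_comm]
  rw [c2, th]
  refine Finset.sum_congr rfl fun a _ => Finset.sum_congr rfl fun b _ =>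
    Finset.sum_congr rfl fun c _ => ?_
  simp only [← Finset.sum_mul, v_inv, ite_mul, one_mul, zero_mul, Finset.sum_ite_eq,
    Finset.mem_univ, if_true]
  ring

/-! ### Lifts of the identity -/

/-- The elements of the normal closure of the boundary word. -/
lemma ncl {r : Fr m} (hr : r ∈ Subgroup.normalClosure {(dl m : Fr m)}) :
    ∃ (n : ℤ) (c : Fin m ⊕ Fin m → R), hs r = Hs.z ^ ((m : ℤ) * n) ∧ (∀ i, (M R r).v i = 0) ∧
      (∀ i j, (M R r).x i j = (n : R) * w R i j) ∧
      ∀ i j k, (M R r).y i j k = (n : R) * (M R (dl m : Fr m)).y i j k + c i * w R j k -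
        w R i j * c k := by
  have hzz : ∀ k l : ℤ, (Hs.z : Hs m) ^ k * Hs.z ^ l = Hs.z ^ (k + l) := fun k l =>
    (zpow_add _ _ _).symm
  refine Subgroup.closure_induction (p := fun r _ => ∃ (n : ℤ) (c : Fin m ⊕ Fin m → R),
      hs r = Hs.z ^ ((m : ℤ) * n) ∧ (∀ i, (M R r).v i = 0) ∧
      (∀ i j, (M R r).x i j = (n : R) * w R i j) ∧
      ∀ i j k, (M R r).y i j k = (n : R) * (M R (dl m : Fr m)).y i j k + c i * w R j k -
        w R i j * c k) ?_ ?_ ?_ ?_ hr
  · rintro x hx
    rw [Group.mem_conjugatesOfSet_iff] at hx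
    obtain ⟨y, hy, hxy⟩ := hx
    rw [Set.mem_singleton_iff] at hy
    subst hy
    obtain ⟨g, rfl⟩ := isConj_iff.1 hxy
    refine ⟨1, fun i => (M R g).v i, ?_, ?_, ?_, ?_⟩
    · rw [map_mul, map_mul, map_inv, hs_dl m le_rfl, mul_one]
      have h1 := ((Hs.z_comm (hs g)).zpow_left (m : ℤ)).eq
      rw [← h1, mul_assoc, mul_inv_cancel, mul_one]
    · intro i
      rw [M_mul, M_mul, M_inv, MG.mul_v, MG.mul_v, MG.inv_v, dl_v]
      ring
    · intro i j
      rw [M_mul, M_mul, M_inv, MG.mul_x, MG.mul_x, MG.mul_v, MG.inv_v, MG.inv_x, dl_v, dl_v, dl_x]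
      push_cast
      ring
    · intro i j k
      rw [M_mul, M_mul, M_inv]
      simp only [MG.mul_y, MG.mul_x, MG.mul_v, MG.inv_v, MG.inv_x, MG.inv_y, dl_v, dl_x]
      push_cast
      ring
  · refine ⟨0, fun _ => 0, ?_, ?_, ?_, ?_⟩
    · rw [map_one, mul_zero, zpow_zero]
    · intro i
      rw [M_one]
      rfl
    · intro i j
      rw [M_one, MG.one_x]
      push_cast
      ring
    · intro i j k
      rw [M_one, MG.one_y]
      push_cast
      ring
  · rintro x y _ _ ⟨n, c, h1, h2, h3, h4⟩ ⟨n', c', h1', h2', h3', h4'⟩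
    refine ⟨n + n', fun i => c i + c' i, ?_, ?_, ?_, ?_⟩
    · rw [map_mul, h1, h1', hzz, mul_add]
    · intro i
      rw [M_mul, MG.mul_v, h2, h2', add_zero]
    · intro i j
      rw [M_mul, MG.mul_x, h2, h3, h3']
      push_cast
      ring
    · intro i j k
      rw [M_mul, MG.mul_y, h2, h2', h4, h4']
      push_cast
      ring
  · rintro x _ ⟨n, c, h1, h2, h3, h4⟩
    refine ⟨-n, fun i => -c i, ?_, ?_, ?_, ?_⟩
    · rw [map_inv, h1, mul_neg, zpow_neg]
    · intro i
      rw [M_inv, MG.inv_v, h2, neg_zero]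
    · intro i j
      rw [M_inv, MG.inv_x, h2, h3]
      push_cast
      ring
    · intro i j k
      rw [M_inv, MG.inv_y]
      simp only [h2, h3, h4]
      push_cast
      ring

/-- Lifts of the identity have vanishing degree two part and, for `m` congruent to one modulo
three, vanishing trace. -/
theorem th_lift (hm : m ≠ 0) (h3 : ((2 * m + 1 : ℕ) : R) = 0) {F : MulAut (Fr m)}
    (hh : ∀ z, hs (F z) = hs z)
    (hF : ∀ z, ∃ r ∈ Subgroup.normalClosure {(dl m : Fr m)}, F z = z * r) :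
    (∀ k i j, tt R F k i j = 0) ∧ th R F = 0 := by
  have key : ∀ k : Fin m ⊕ Fin m, ∃ c : Fin m ⊕ Fin m → R, (∀ i j, (mi R F k).x i j = 0) ∧
      ∀ i j r, (mi R F k).y i j r = c i * w R j r - w R i j * c r := by
    intro k
    obtain ⟨r, hr, h1⟩ := hF (of k)
    obtain ⟨n, c, h2, h4, h5, h6⟩ := ncl R hr
    have h7 : hs r = 1 := by
      have := hh (of k)
      rw [h1, map_mul] at this
      exact mul_eq_left.1 this
    have hn : n = 0 := by
      rw [h7, Hs.z_zpow] at h2
      have h8 := congrArg Hs.s h2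
      change (0 : ℤ) = m * n at h8
      rcases mul_eq_zero.1 h8.symm with h9 | h9
      · exact absurd (by exact_mod_cast h9) hm
      · exact h9
    subst hn
    refine ⟨c, ?_, ?_⟩
    · intro i j
      rw [mi, h1, M_mul, MG.mul_x, h5, h4, M_of]
      change (0 : R) + _ + _ = 0
      push_cast
      ring
    · intro i j q
      rw [mi, h1, M_mul, MG.mul_y, h6, h4, h5, M_of]
      change (0 : R) + _ + _ + (0 : R) * _ = _
      push_cast
      ring
  choose c h1 h2 using key
  refine ⟨fun k i j => h1 k i j, ?_⟩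
  have e1 : ∀ k, ∑ j, ∑ r, w R j r * (mi R F k).y k j r = ((2 * m + 1 : ℕ) : R) * c k k := by
    intro k
    have e2 : ∀ j r, w R j r * (mi R F k).y k j r =
        c k k * (w R j r * w R j r) - w R k j * w R j r * c k r := by
      intro j r
      rw [h2]
      ring
    simp only [e2, Finset.sum_sub_distrib]
    have e3 : ∑ j : Fin m ⊕ Fin m, ∑ r, c k k * (w R j r * w R j r) =
        ((2 * m : ℕ) : R) * c k k := by
      have e4 : ∀ j : Fin m ⊕ Fin m, ∑ r, w R j r * w R j r = 1 := by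
        intro j
        have := w_sq (R := R) j j
        rw [if_pos rfl] at this
        have e5 : ∑ r, w R j r * w R j r = -∑ r, w R j r * w R r j := by
          rw [← Finset.sum_neg_distrib]
          exact Finset.sum_congr rfl fun r _ => by rw [w_swap j r]; ring
        rw [e5, this, neg_neg]
      simp only [← Finset.mul_sum, e4]
      rw [Finset.sum_const, Finset.card_univ, Fintype.card_sum, Fintype.card_fin, nsmul_eq_mul,
        mul_one]
      push_cast
      ring
    have e6 : ∑ j, ∑ r, w R k j * w R j r * c k r = -c k k := by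
      rw [Finset.sum_comm]
      simp only [← Finset.sum_mul, w_sq, ite_mul, neg_one_mul, zero_mul, Finset.sum_ite_eq,
        Finset.mem_univ, if_true]
    rw [e3, e6]
    push_cast
    ring
  rw [th]
  simp only [e1, h3, zero_mul, Finset.sum_const_zero]

end Pool.Agent.H.MP_59b15d_al.H40T
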