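/-
The invariant modulo three for the mapping class group of the closed surface.
-/
import Pool.Agent.H.MP_59b15d_al.h40th.Inv
import Pool.Agent.H.MP_59b15d_al.h93c.TL

set_option autoImplicit false

namespace Pool.Agent.H.MP_59b15d_al.H40T

open Pool.Agent.H.MP_59b15d_al.SP Pool.Agent.H.MP_59b15d_al.H93C
open Pool.MP_59b15d_al.H24T Pool.MP_59b15d_al.H76R Pool.MP_59b15d_al.H73E
open Pool.MP_59b15d_al.H60G
open FreeGroup (of)

lemma three : (3 : ZMod 3) = 0 := rfl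

section any

variable {m : ℕ} {G : Type*} [Group G] {a b : Fin m → G}

/-- `φ` has a lift which is trivial in degree two, and whose trace is `t`. -/
def TH (a b : Fin m → G) (φ : MulAut G) (t : ZMod 3) : Prop :=
  ∃ F, Lf a b φ F ∧ (∀ z, clr (F z) = clr z) ∧ (∀ k i j, tt (ZMod 3) F k i j = 0) ∧
    th (ZMod 3) F = t

lemma clr_mul_aut {F K : MulAut (Fr m)} (h1 : ∀ z, clr (F z) = clr z)
    (h2 : ∀ z, clr (K z) = clr z) (z : Fr m) : clr ((F * K) z) = clr z := by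
  rw [MulAut.mul_apply, h1, h2]

theorem TH.one (a b : Fin m → G) : TH a b 1 0 :=
  ⟨1, Lf.one a b, fun _ => rfl, fun k i j => tt_one _ k i j, th_one _⟩

theorem TH.mul {φ ψ : MulAut G} {s t : ZMod 3} (h1 : TH a b φ s) (h2 : TH a b ψ t) :
    TH a b (φ * ψ) (s + t) := by
  obtain ⟨F, f1, f2, f3, rfl⟩ := h1
  obtain ⟨K, k1, k2, k3, rfl⟩ := h2
  refine ⟨F * K, f1.mul k1, clr_mul_aut f2 k2, fun k i j => ?_, th_mul_left _ f2 k2 f3⟩
  rw [tt_mul _ f2 k2, f3, k3, add_zero]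

theorem TH.inv {φ : MulAut G} {s : ZMod 3} (h1 : TH a b φ s) : TH a b φ⁻¹ (-s) := by
  obtain ⟨F, f1, f2, f3, rfl⟩ := h1
  have f4 := clr_inv_aut f2
  have f5 : ∀ k i j, tt (ZMod 3) F⁻¹ k i j = 0 := fun k i j => by rw [tt_inv _ f2, f3, neg_zero]
  refine ⟨F⁻¹, f1.inv, f4, f5, ?_⟩
  have h2 := th_mul_left (ZMod 3) f2 f4 f3
  rw [mul_inv_cancel, th_one] at h2
  linear_combination -h2

/-- The commutator of two elements with shifts. -/
theorem TH.comm {φ ψ : MulAut G} {u v : V m} (h1 : TL a b φ u) (h2 : TL a b ψ v) :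
    TH a b (φ * ψ * φ⁻¹ * ψ⁻¹) (2 * (om u v : ZMod 3)) := by
  obtain ⟨F, f1, f2⟩ := h1
  obtain ⟨K, k1, k2⟩ := h2
  have f3 : ∀ z, clr (F z) = clr z := fun z => clr_of_hs (f2 z)
  have k3 : ∀ z, clr (K z) = clr z := fun z => clr_of_hs (k2 z)
  have f4 := clr_inv_aut f3
  have k4 := clr_inv_aut k3
  have fk := clr_mul_aut f3 k3
  have kf := clr_mul_aut k3 f3
  have c1 : ∀ z, clr ((F * K * F⁻¹ * K⁻¹) z) = clr z :=
    clr_mul_aut (clr_mul_aut fk f4) k4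
  have c2 : ∀ k i j, tt (ZMod 3) (F * K * F⁻¹ * K⁻¹) k i j = 0 := by
    intro k i j
    rw [tt_mul _ (clr_mul_aut fk f4) k4, tt_mul _ fk f4, tt_mul _ f3 k3, tt_inv _ f3, tt_inv _ k3]
    ring
  refine ⟨F * K * F⁻¹ * K⁻¹, ((f1.mul k1).mul f1.inv).mul k1.inv, c1, c2, ?_⟩
  have e1 := th_mul_left (ZMod 3) c1 kf c2
  have e2 : F * K * F⁻¹ * K⁻¹ * (K * F) = F * K := by group
  have fd := FT_dl F f1.mem
  have kd := FT_dl K k1.mem
  rw [e2, th_mul _ three f3 k3 fd kd f2 k2, th_mul _ three k3 f3 kd fd k2 f2] at e1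
  have e3 : (om v u : ZMod 3) = -(om u v : ZMod 3) := by
    rw [om_swap v u]
    push_cast
    ring
  rw [e3] at e1
  linear_combination -e1

end any

section closed

variable {n : ℕ} {G : Type*} [Group G] {a b : Fin (n + 1) → G}

theorem TH.conj (h : IsSurf a b) {φ κ : MulAut G} {t : ZMod 3} (h1 : TH a b φ t)
    (hκ : κ ∈ MMs h) : TH a b (κ * φ * κ⁻¹) t := by
  obtain ⟨F, f1, f2, f3, rfl⟩ := h1
  obtain ⟨K, k1⟩ := exists_Lf h hκ
  refine ⟨K * F * K⁻¹, (k1.mul f1).mul k1.inv, fun z => ?_, fun k i j => ?_,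
    th_conj _ f2 f3 (FT_sym k1.mem)⟩
  · rw [MulAut.mul_apply, MulAut.mul_apply, k1.clr_eq h, f2, ← k1.clr_eq h, MulAut.apply_inv_self]
  · rw [tt_conj _ f2]
    simp [f3]

/-- The value of the invariant is unique. -/
theorem TH.unique (h : IsSurf a b) (hn : 1 ≤ n) (h3 : 3 ∣ n) {φ : MulAut G} {s t : ZMod 3}
    (h1 : TH a b φ s) (h2 : TH a b φ t) : s = t := by
  obtain ⟨F, f1, f2, f3, rfl⟩ := h1
  obtain ⟨K, k1, k2, k3, rfl⟩ := h2
  have e1 : Lf a b 1 (K⁻¹ * F) := by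
    have := k1.inv.mul f1
    rwa [inv_mul_cancel] at this
  have e2 : ∀ z, hs ((K⁻¹ * F) z) = hs z := fun z => Lf_one_hs h hn e1 z
  have e3 : ∀ z, ∃ r ∈ Subgroup.normalClosure {(dl (n + 1) : Fr (n + 1))},
      (K⁻¹ * F) z = z * r := by
    intro z
    refine ⟨z⁻¹ * (K⁻¹ * F) z, qH_ker h ?_, by group⟩
    rw [map_mul, ← e1.ind, MulAut.one_apply, map_inv, inv_mul_cancel]
  have e4 : ((2 * (n + 1) + 1 : ℕ) : ZMod 3) = 0 := by
    rw [ZMod.natCast_eq_zero_iff]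
    omega
  obtain ⟨e5, e6⟩ := th_lift (ZMod 3) (Nat.succ_ne_zero n) e4 e2 e3
  have e7 : ∀ z, clr ((K⁻¹ * F) z) = clr z := fun z => by rw [clr, clr, e2]
  have e8 := th_mul_right (ZMod 3) k2 e7 e5
  rw [mul_inv_cancel_left, e6, add_zero] at e8
  exact e8

/-- Conjugation by an element acting as minus one. -/
theorem TH.iota (h : IsSurf a b) {φ ι : MulAut G} {u : V (n + 1)} (h1 : TL a b φ u)
    (hι : ι ∈ MMs h) (hm : ∀ x, H1 h ι x = -x) : ∃ t, TH a b (φ * (ι * φ * ι⁻¹)) t := by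
  obtain ⟨F, f1, f2⟩ := h1
  obtain ⟨J, j1⟩ := exists_Lf h hι
  have f3 : ∀ z, clr (F z) = clr z := fun z => clr_of_hs (f2 z)
  have j2 : ∀ z, clr (J z) = -clr z := fun z => by rw [j1.clr_eq h, hm]
  have j3 : ∀ z, clr (J⁻¹ z) = -clr z := fun z => by
    have := j2 (J⁻¹ z)
    rw [MulAut.apply_inv_self] at this
    rw [this, neg_neg]
  have c1 : ∀ z, clr ((J * F * J⁻¹) z) = clr z := fun z => by
    rw [MulAut.mul_apply, MulAut.mul_apply, j2, f3, j3, neg_neg]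
  refine ⟨_, F * (J * F * J⁻¹), f1.mul ((j1.mul f1).mul j1.inv), clr_mul_aut f3 c1,
    fun k i j => ?_, rfl⟩
  rw [tt_mul _ f3 c1, tt_conj _ f3]
  have d1 : ∀ k i : Fin (n + 1) ⊕ Fin (n + 1), (mi (ZMod 3) J k).v i =
      -(if k = i then 1 else 0) := by
    intro k i
    rw [mi, M_v, j2, crd_neg, Int.cast_neg, ← M_v, M_of]
    rfl
  have d2 : ∀ k i : Fin (n + 1) ⊕ Fin (n + 1), (mi (ZMod 3) J⁻¹ k).v i =
      -(if k = i then 1 else 0) := by
    intro k i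
    rw [mi, M_v, j3, crd_neg, Int.cast_neg, ← M_v, M_of]
    rfl
  have d3 : ∀ k' a' b' : Fin (n + 1) ⊕ Fin (n + 1),
      ∑ p, (mi (ZMod 3) J⁻¹ k').v p * tt (ZMod 3) F p a' b' = -tt (ZMod 3) F k' a' b' := by
    intro k' a' b'
    simp only [d2, neg_mul, ite_mul, one_mul, zero_mul, Finset.sum_neg_distrib, Finset.sum_ite_eq,
      Finset.mem_univ, if_true]
  have d4 : ∑ a', ∑ b', (∑ p, (mi (ZMod 3) J⁻¹ k).v p * tt (ZMod 3) F p a' b') *
      ((mi (ZMod 3) J a').v i * (mi (ZMod 3) J b').v j) = -tt (ZMod 3) F k i j := by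
    simp only [d3, d1, neg_mul_neg, mul_ite, mul_one, mul_zero, ite_mul, zero_mul,
      Finset.sum_ite_eq', Finset.mem_univ, if_true]
  rw [d4, add_neg_cancel]

end closed

end Pool.Agent.H.MP_59b15d_al.H40T
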