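/-
The final deduction for the prime three: a quotient of the mapping class group in which the
elements with shift divisible by `M` lie in a central subgroup of order three is determined by the
invariant modulo three.
-/
import Pool.Agent.H.MP_59b15d_al.h40th.Td

set_option autoImplicit false

namespace Pool.Agent.H.MP_59b15d_al.H40T

open Pool.Agent.H.MP_59b15d_al.SP Pool.Agent.H.MP_59b15d_al.H93C
open Pool.MP_59b15d_al.H24T Pool.MP_59b15d_al.H76R Pool.MP_59b15d_al.H73E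
open Pool.MP_59b15d_al.H60G
open FreeGroup (of)

/-- The map `x ↦ x ι(x)` into a quotient in which its values are central. -/
theorem P_all {A : Type*} [Group A] (I R D : Subgroup A) (hI : I.Normal) (hR : R.Normal) (ι : A)
    (hRc : ∀ x ∈ I, ∀ y ∈ I, x * y * x⁻¹ * y⁻¹ ∈ R) (hD : ∀ x ∈ I, x * (ι * x * ι⁻¹) ∈ D)
    (hDc : ∀ d ∈ D, ∀ κ, κ * d * κ⁻¹ * d⁻¹ ∈ R) (hj : ∀ κ, ι⁻¹ * κ⁻¹ * ι * κ ∈ I)
    (hgen : ∀ K : Subgroup A, K.Normal → (∀ x ∈ I, ∀ κ, x * κ * x⁻¹ * κ⁻¹ ∈ K) → I ≤ K) :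
    ∀ x ∈ I, x * (ι * x * ι⁻¹) ∈ R := by
  have hι : ∀ x ∈ I, ι * x * ι⁻¹ ∈ I := fun x hx => hI.conj_mem x hx ι
  -- multiplicativity
  have hmul : ∀ x ∈ I, ∀ y ∈ I, ∃ r ∈ R, (x * y) * (ι * (x * y) * ι⁻¹) =
      x * (ι * x * ι⁻¹) * r * (y * (ι * y * ι⁻¹)) := by
    intro x hx y hy
    refine ⟨(ι * x * ι⁻¹)⁻¹ * (y * (ι * x * ι⁻¹) * y⁻¹ * (ι * x * ι⁻¹)⁻¹) * (ι * x * ι⁻¹), ?_, ?_⟩
    · have h1 := hR.conj_mem _ (hRc y hy _ (hι x hx)) (ι * x * ι⁻¹)⁻¹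
      rwa [inv_inv] at h1
    · group
  have hinv : ∀ x, x⁻¹ * (ι * x⁻¹ * ι⁻¹) = x⁻¹ * (x * (ι * x * ι⁻¹))⁻¹ * x := by
    intro x
    group
  -- conjugation
  have hcj : ∀ x ∈ I, ∀ κ, ∃ r ∈ R, (κ * x * κ⁻¹) * (ι * (κ * x * κ⁻¹) * ι⁻¹) =
      κ * (r * (x * (ι * x * ι⁻¹))) * κ⁻¹ := by
    intro x hx κ
    refine ⟨x * (ι * ((ι⁻¹ * κ⁻¹ * ι * κ) * x * (ι⁻¹ * κ⁻¹ * ι * κ)⁻¹ * x⁻¹) * ι⁻¹) * x⁻¹, ?_, ?_⟩
    · exact hR.conj_mem _ (hR.conj_mem _ (hRc _ (hj κ) _ hx) ι) x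
    · group
  let K : Subgroup A :=
    { carrier := {x | x ∈ I ∧ x * (ι * x * ι⁻¹) ∈ R}
      mul_mem' := by
        rintro x y ⟨h1, h2⟩ ⟨h3, h4⟩
        refine ⟨I.mul_mem h1 h3, ?_⟩
        obtain ⟨r, hr, h5⟩ := hmul x h1 y h3
        rw [h5]
        exact R.mul_mem (R.mul_mem h2 hr) h4
      one_mem' := by
        refine ⟨I.one_mem, ?_⟩
        have h1 : (1 : A) * (ι * 1 * ι⁻¹) = 1 := by group
        rw [h1]
        exact R.one_mem
      inv_mem' := by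
        rintro x ⟨h1, h2⟩
        refine ⟨I.inv_mem h1, ?_⟩
        rw [hinv]
        have h3 := hR.conj_mem _ (R.inv_mem h2) x⁻¹
        rwa [inv_inv] at h3 }
  have hK : K.Normal := by
    refine ⟨?_⟩
    rintro x ⟨h1, h2⟩ κ
    refine ⟨hI.conj_mem x h1 κ, ?_⟩
    obtain ⟨r, hr, h3⟩ := hcj x h1 κ
    rw [h3]
    exact hR.conj_mem _ (R.mul_mem hr h2) κ
  have hle : I ≤ K := by
    refine hgen K hK ?_
    intro x hx κ
    have hy : κ * x * κ⁻¹ ∈ I := hI.conj_mem x hx κ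
    have h0 : x * κ * x⁻¹ * κ⁻¹ = x * (κ * x * κ⁻¹)⁻¹ := by group
    rw [h0]
    refine ⟨I.mul_mem hx (I.inv_mem hy), ?_⟩
    obtain ⟨r1, hr1, h1⟩ := hmul x hx _ (I.inv_mem hy)
    obtain ⟨c, hc, h2⟩ := hcj x hx κ
    rw [h1, hinv]
    obtain ⟨d, hd⟩ : ∃ d, d = x * (ι * x * ι⁻¹) := ⟨_, rfl⟩
    obtain ⟨y, hy'⟩ : ∃ y, y = κ * x * κ⁻¹ := ⟨_, rfl⟩
    rw [← hd] at h2 ⊢
    rw [← hy'] at h2 ⊢
    rw [h2]
    have hdD : d ∈ D := by rw [hd]; exact hD x hx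
    have hyD : κ * (c * d) * κ⁻¹ ∈ D := by
      rw [← h2, hy']
      exact hD _ hy
    have r2 : y⁻¹ * (κ * (c * d) * κ⁻¹)⁻¹ * y * (κ * (c * d) * κ⁻¹) ∈ R := by
      have := hDc _ (D.inv_mem hyD) y⁻¹
      rwa [inv_inv, inv_inv] at this
    have r3 : κ * c * κ⁻¹ * (κ * d * κ⁻¹ * d⁻¹) ∈ R := R.mul_mem (hR.conj_mem c hc κ) (hDc d hdD κ)
    have e1 : d * r1 * (y⁻¹ * (κ * (c * d) * κ⁻¹)⁻¹ * y) =
        d * (r1 * (y⁻¹ * (κ * (c * d) * κ⁻¹)⁻¹ * y * (κ * (c * d) * κ⁻¹))) * d⁻¹ *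
          (κ * c * κ⁻¹ * (κ * d * κ⁻¹ * d⁻¹))⁻¹ := by
      group
    rw [e1]
    exact R.mul_mem (hR.conj_mem _ (R.mul_mem hr1 r2) d) (R.inv_mem r3)
  exact fun x hx => (hle hx).2

variable {n : ℕ} {G : Type*} [Group G] {a b : Fin (n + 1) → G}

/-- **The prime three.** -/
theorem theta_end (h : IsSurf a b) (hn : 1 ≤ n) (h3 : 3 ∣ n) {Q : Type*} [Group Q]
    (q : MMs h →* Q) (s : Q) (hsc : ∀ x, Commute s (q x)) (hs3 : s ^ 3 = 1)
    (hcomm : ∀ (φ ψ : MMs h) (u v : V (n + 1)), TL a b (φ : MulAut G) u →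
      TL a b (ψ : MulAut G) v → q (φ * ψ * φ⁻¹ * ψ⁻¹) = s ^ om u v)
    (M : ℤ) (hM : ∀ (φ : MMs h) (u : V (n + 1)), TL a b (φ : MulAut G) (M • u) →
      ∃ k : ℤ, q φ = s ^ k)
    (ι : MMs h) (hι : ∀ x, H1 h (ι : MulAut G) x = -x)
    (hgen : ∀ K : Subgroup (MMs h), K.Normal →
      (∀ x : MMs h, H1 h (x : MulAut G) = 1 → ∀ κ, x * κ * x⁻¹ * κ⁻¹ ∈ K) →
      ∀ x : MMs h, H1 h (x : MulAut G) = 1 → x ∈ K)
    (φ : MMs h) (u : V (n + 1)) (hu : TL a b (φ : MulAut G) (M • u))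
    (hθ : TH a b (φ : MulAut G) 0) : q φ = 1 := by
  have hz : ∀ k : ℤ, s ^ (3 * k) = 1 := by
    intro k
    rw [zpow_mul]
    have : s ^ (3 : ℤ) = 1 := by exact_mod_cast hs3
    rw [this, one_zpow]
  have hmod : ∀ k l : ℤ, (k : ZMod 3) = (l : ZMod 3) → s ^ k = s ^ l := by
    intro k l hkl
    obtain ⟨c, hc⟩ := (ZMod.intCast_eq_intCast_iff_dvd_sub k l 3).1 hkl
    have h1 : l = k + 3 * c := by push_cast at hc; linarith
    rw [h1, zpow_add, hz, mul_one]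
  have hqc : ∀ (x : MMs h) (k : ℤ), q x * s ^ k * (q x)⁻¹ = s ^ k := by
    intro x k
    rw [← ((hsc x).zpow_left k).eq, mul_inv_cancel_right]
  -- the three subgroups
  let I : Subgroup (MMs h) := ((H1 h).comp (MMs h).subtype).ker
  have hIm : ∀ x : MMs h, x ∈ I ↔ H1 h (x : MulAut G) = 1 := fun x => Iff.rfl
  have hTLI : ∀ x ∈ I, ∃ u, TL a b ((x : MMs h) : MulAut G) u := fun x hx =>
    exists_TL h x.2 ((hIm x).1 hx)
  let D : Subgroup (MMs h) :=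
    { carrier := {x | (∃ u : V (n + 1), TL a b (x : MulAut G) (M • u)) ∧
        ∃ t, TH a b (x : MulAut G) t}
      mul_mem' := by
        rintro x y ⟨⟨u, hu⟩, t, ht⟩ ⟨⟨v, hv⟩, r, hr⟩
        refine ⟨⟨u + v, ?_⟩, _, ht.mul hr⟩
        rw [smul_add]
        exact hu.mul hv
      one_mem' := by
        refine ⟨⟨0, ?_⟩, _, TH.one a b⟩
        rw [smul_zero]
        exact TL.one a b
      inv_mem' := by
        rintro x ⟨⟨u, hu⟩, t, ht⟩
        refine ⟨⟨-u, ?_⟩, _, ht.inv⟩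
        rw [smul_neg]
        exact hu.inv }
  let R : Subgroup (MMs h) :=
    { carrier := {x | (∃ u : V (n + 1), TL a b (x : MulAut G) (M • u)) ∧
        ∃ t : ℤ, TH a b (x : MulAut G) (t : ZMod 3) ∧ q x = s ^ (-t)}
      mul_mem' := by
        rintro x y ⟨⟨u, hu⟩, t, ht, ht2⟩ ⟨⟨v, hv⟩, r, hr, hr2⟩
        refine ⟨⟨u + v, ?_⟩, t + r, ?_, ?_⟩
        · rw [smul_add]
          exact hu.mul hv
        · push_cast
          exact ht.mul hr
        · rw [map_mul, ht2, hr2, ← zpow_add]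
          congr 1
          ring
      one_mem' := by
        refine ⟨⟨0, ?_⟩, 0, ?_, ?_⟩
        · rw [smul_zero]
          exact TL.one a b
        · push_cast
          exact TH.one a b
        · rw [map_one, neg_zero, zpow_zero]
      inv_mem' := by
        rintro x ⟨⟨u, hu⟩, t, ht, ht2⟩
        refine ⟨⟨-u, ?_⟩, -t, ?_, ?_⟩
        · rw [smul_neg]
          exact hu.inv
        · push_cast
          exact ht.inv
        · rw [map_inv, ht2, ← zpow_neg] }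
  have hI : I.Normal := by
    change (((H1 h).comp (MMs h).subtype).ker).Normal
    infer_instance
  have hconjTL : ∀ (κ x : MMs h) (u : V (n + 1)), TL a b (x : MulAut G) (M • u) →
      TL a b ((κ * x * κ⁻¹ : MMs h) : MulAut G) (M • H1 h (κ : MulAut G) u) := by
    intro κ x u hu
    have := hu.conj h κ.2
    rwa [map_smul] at this
  have hR : R.Normal := by
    refine ⟨?_⟩
    rintro x ⟨⟨u, hu⟩, t, ht, ht2⟩ κ
    refine ⟨⟨_, hconjTL κ x u hu⟩, t, ht.conj h κ.2, ?_⟩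
    rw [map_mul, map_mul, map_inv, ht2, hqc]
  have hall := P_all I R D hI hR ι ?_ ?_ ?_ ?_ ?_
  · -- conclusion
    have hφI : φ ∈ I := (hIm φ).2 (hu.H1_eq h)
    obtain ⟨-, r, hr, hr2⟩ := hall φ hφI
    obtain ⟨k, hk⟩ := hM φ u hu
    have e1 : TH a b ((φ * (ι * φ * ι⁻¹) : MMs h) : MulAut G) (0 + 0) := hθ.mul (hθ.conj h ι.2)
    have e2 : (r : ZMod 3) = 0 + 0 := hr.unique h hn h3 e1
    have e3 : (r : ZMod 3) = ((0 : ℤ) : ZMod 3) := by
      rw [e2]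
      push_cast
      ring
    have e4 : s ^ (-r) = 1 := by
      rw [zpow_neg, hmod r 0 e3, zpow_zero, inv_one]
    rw [e4, map_mul, map_mul, map_mul, map_inv, hk, hqc, ← zpow_add] at hr2
    have e5 : (s ^ k) ^ 3 = 1 := by
      rw [← zpow_natCast, ← zpow_mul, mul_comm]
      exact_mod_cast hz k
    have e6 : (s ^ k) ^ 2 = 1 := by
      rw [← zpow_natCast, ← zpow_mul, mul_comm]
      rw [← hr2]
      congr 1
      push_cast
      ring
    rw [hk]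
    calc s ^ k = (s ^ k) ^ 3 * ((s ^ k) ^ 2)⁻¹ := by group
      _ = 1 := by rw [e5, e6, inv_one, mul_one]
  · -- commutators of elements of the Torelli group
    intro x hx y hy
    obtain ⟨u, hu⟩ := hTLI x hx
    obtain ⟨v, hv⟩ := hTLI y hy
    refine ⟨⟨0, ?_⟩, 2 * om u v, ?_, ?_⟩
    · rw [smul_zero]
      have := ((hu.mul hv).mul hu.inv).mul hv.inv
      have e1 : u + v + -u + -v = 0 := by abel
      rw [e1] at this
      exact this
    · push_cast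
      exact TH.comm hu hv
    · rw [hcomm x y u v hu hv]
      apply hmod
      push_cast
      linear_combination (om u v : ZMod 3) * three
  · -- values of the map
    intro x hx
    obtain ⟨u, hu⟩ := hTLI x hx
    refine ⟨⟨0, ?_⟩, TH.iota h hu ι.2 hι⟩
    rw [smul_zero]
    have := hu.mul (hu.conj h ι.2)
    rw [hι, add_neg_cancel] at this
    exact this
  · -- centrality
    rintro d ⟨⟨u, hu⟩, t, ht⟩ κ
    obtain ⟨k, hk⟩ := hM d u hu
    refine ⟨⟨H1 h (κ : MulAut G) u + -u, ?_⟩, 0, ?_, ?_⟩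
    · rw [smul_add, smul_neg]
      exact (hconjTL κ d u hu).mul hu.inv
    · have := (ht.conj h κ.2).mul ht.inv
      rw [add_neg_cancel] at this
      push_cast
      exact this
    · rw [map_mul, map_mul, map_mul, map_inv, map_inv, hk, hqc, mul_inv_cancel, neg_zero,
        zpow_zero]
  · intro κ
    rw [hIm]
    change H1 h ((ι : MulAut G)⁻¹ * (κ : MulAut G)⁻¹ * (ι : MulAut G) * (κ : MulAut G)) = 1
    have e1 : ∀ x, H1 h (ι : MulAut G)⁻¹ x = -x := by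
      intro x
      have e2 : H1 h (ι : MulAut G) (H1 h (ι : MulAut G)⁻¹ x) = x := by
        have e3 : (H1 h (ι : MulAut G) * H1 h (ι : MulAut G)⁻¹) x = x := by
          rw [← map_mul, mul_inv_cancel, map_one]
          rfl
        exact e3
      rw [hι] at e2
      exact neg_eq_iff_eq_neg.1 e2
    refine LinearEquiv.ext fun x => ?_
    rw [map_mul, map_mul, map_mul]
    change H1 h (ι : MulAut G)⁻¹ (H1 h (κ : MulAut G)⁻¹ (H1 h (ι : MulAut G)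
      (H1 h (κ : MulAut G) x))) = x
    rw [e1, hι, map_neg, neg_neg]
    have e3 : (H1 h (κ : MulAut G)⁻¹ * H1 h (κ : MulAut G)) x = x := by
      rw [← map_mul, inv_mul_cancel, map_one]
      rfl
    exact e3
  · intro K hK hc x hx
    exact hgen K hK (fun y hy κ => hc y hy κ) x hx

end Pool.Agent.H.MP_59b15d_al.H40T
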