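/-
The last step for the prime three: from shifts divisible by `M` and vanishing invariant modulo three
to a congruence subgroup.
-/
import Pool.Agent.H.MP_59b15d_al.h40th.Td
import Pool.Agent.H.MP_59b15d_al.h93c.Fin
import Pool.Agent.H.MP_59b15d_al.lin.Cc

set_option autoImplicit false

namespace Pool.Agent.H.MP_59b15d_al.H40T

open Pool.Agent.H.MP_59b15d_al.SP Pool.Agent.H.MP_59b15d_al.H93C
open Pool.MP_59b15d_al.H24T Pool.MP_59b15d_al.H76R Pool.MP_59b15d_al.H73E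
open Pool.MP_59b15d_al.H60G
open Pool.MP_59b15d_al.H76 (InnMod exists_char_le comap_fi map_fi surf_fg)
open FreeGroup (of)

section free

variable {m : ℕ} (R : Type*) [CommRing R]

lemma MG.pow3 {K : Type*} (h3 : (3 : R) = 0) (g : MG R K) : (g ^ 3).v = (fun _ => 0) ∧
    (g ^ 3).x = (fun _ _ => 0) ∧ (g ^ 3).y = fun i j k => g.v i * g.v j * g.v k := by
  rw [pow_succ, pow_two]
  refine ⟨funext fun i => ?_, funext fun i => funext fun j => ?_,
    funext fun i => funext fun j => funext fun k => ?_⟩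
  · simp only [MG.mul_v]
    linear_combination g.v i * h3
  · simp only [MG.mul_x, MG.mul_v]
    linear_combination (g.x i j + g.v i * g.v j) * h3
  · simp only [MG.mul_y, MG.mul_x, MG.mul_v]
    linear_combination (g.y i j k + g.v i * g.x j k + g.x i j * g.v k) * h3

lemma MG.pow9 {K : Type*} (h3 : (3 : R) = 0) (g : MG R K) : g ^ 9 = 1 := by
  have h1 : g ^ 9 = (g ^ 3) ^ 3 := by rw [← pow_mul]
  obtain ⟨e1, e2, e3⟩ := MG.pow3 R h3 (g ^ 3)
  obtain ⟨f1, -, -⟩ := MG.pow3 R h3 g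
  rw [h1]
  apply MG.ext'
  · intro i
    rw [e1]
    rfl
  · intro i j
    rw [e2]
    rfl
  · intro i j k
    rw [e3, f1]
    simp [MG.one_y]

lemma M_FA (h3 : (3 : R) = 0) (k : Fin m) {N : ℕ} (hN : 9 ∣ N) (z : Fr m) :
    M R ((FA k ^ N) z) = M R z := by
  obtain ⟨c, rfl⟩ := hN
  have h1 : (mu R (Fin m ⊕ Fin m)).comp (FA k ^ (9 * c)).toMonoidHom = mu R (Fin m ⊕ Fin m) := by
    refine fr_ext (fun i => ?_) (fun i => ?_)
    · change M R ((FA k ^ (9 * c)) (of (Sum.inl i))) = M R (of (Sum.inl i))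
      rw [FA_pow_ne _ _ (by simp)]
    · change M R ((FA k ^ (9 * c)) (of (Sum.inr i))) = M R (of (Sum.inr i))
      by_cases hi : i = k
      · subst hi
        rw [FA_pow_self, M_mul]
        have h2 : M R ((of (Sum.inl i) : Fr m) ^ (9 * c)) = 1 := by
          have h4 : M R ((of (Sum.inl i) : Fr m) ^ (9 * c)) =
              (M R (of (Sum.inl i) : Fr m)) ^ (9 * c) := map_pow (mu R (Fin m ⊕ Fin m)) _ _
          rw [h4, pow_mul, MG.pow9 R h3, one_pow]
        rw [h2, mul_one]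
      · rw [FA_pow_ne _ _ (by simp [hi])]
  exact DFunLike.congr_fun h1 z

lemma M_conj {F : MulAut (Fr m)} (hF : ∀ z, M R (F z) = M R z) (K : MulAut (Fr m)) (z : Fr m) :
    M R ((K * F * K⁻¹) z) = M R z := by
  rw [MulAut.mul_apply, MulAut.mul_apply, M_F, hF, ← M_F, MulAut.apply_inv_self]

/-- Automorphisms which are conjugation by a power of the boundary word in degree three. -/
lemma th_dl (h3 : ((2 * m + 1 : ℕ) : R) = 0) {F : MulAut (Fr m)} {l : ℤ}
    (hF : ∀ z, M R (F z) = M R ((dl m) ^ l * z * ((dl m) ^ l)⁻¹)) :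
    (∀ k i j, tt R F k i j = 0) ∧ th R F = 0 := by
  have hmem0 : (dl m : Fr m) ∈ Subgroup.normalClosure {(dl m : Fr m)} :=
    Subgroup.subset_normalClosure (Set.mem_singleton _)
  have hmem : (dl m : Fr m) ^ l ∈ Subgroup.normalClosure {(dl m : Fr m)} :=
    Subgroup.zpow_mem _ hmem0 l
  obtain ⟨n, c, -, h4, h5, -⟩ := ncl R hmem
  have e1 : ∀ k, mi R F k = M R ((dl m : Fr m) ^ l) * vr R _ k * (M R ((dl m : Fr m) ^ l))⁻¹ := by
    intro k
    rw [mi, hF, M_mul, M_mul, M_inv, M_of]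
  have e2 : ∀ k i j, (mi R F k).x i j = 0 := by
    intro k i j
    rw [e1]
    simp only [MG.mul_x, MG.mul_v, MG.inv_v, MG.inv_x, h4, h5]
    change _ + (0 : R) + _ + _ + _ = 0
    ring
  have e3 : ∀ k i j r, (mi R F k).y i j r = (n : R) * (w R i j * (if k = r then 1 else 0) -
      (if k = i then 1 else 0) * w R j r) := by
    intro k i j r
    rw [e1]
    simp only [MG.mul_y, MG.mul_x, MG.mul_v, MG.inv_v, MG.inv_x, MG.inv_y, h4, h5]
    have f1 : ∀ i j r, (vr R (Fin m ⊕ Fin m) k).y i j r = 0 := fun _ _ _ => rfl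
    have f2 : ∀ i j, (vr R (Fin m ⊕ Fin m) k).x i j = 0 := fun _ _ => rfl
    have f3 : ∀ i, (vr R (Fin m ⊕ Fin m) k).v i = if k = i then 1 else 0 := fun _ => rfl
    rw [f1, f2, f2, f3, f3]
    ring
  refine ⟨e2, ?_⟩
  rw [th]
  refine Finset.sum_eq_zero fun k _ => ?_
  have e4 : ∑ j, ∑ r, w R j r * (mi R F k).y k j r = -((n : R) * ((2 * m + 1 : ℕ) : R)) := by
    have f1 : ∀ j r, w R j r * (mi R F k).y k j r =
        (n : R) * (w R k j * w R j r * (if k = r then 1 else 0)) - (n : R) * (w R j r * w R j r) := by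
      intro j r
      rw [e3, if_pos rfl]
      ring
    have f2 : ∀ j : Fin m ⊕ Fin m, ∑ r, w R j r * w R j r = 1 := by
      intro j
      have := w_sq (R := R) j j
      rw [if_pos rfl] at this
      have e5 : ∑ r, w R j r * w R j r = -∑ r, w R j r * w R r j := by
        rw [← Finset.sum_neg_distrib]
        exact Finset.sum_congr rfl fun r _ => by rw [w_swap j r]; ring
      rw [e5, this, neg_neg]
    have f3 : ∑ j : Fin m ⊕ Fin m, ∑ r, w R k j * w R j r * (if k = r then 1 else 0) = -1 := by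
      have f4 : ∀ j : Fin m ⊕ Fin m, ∑ r, w R k j * w R j r * (if k = r then 1 else 0) =
          w R k j * w R j k := by
        intro j
        simp
      simp only [f4]
      have := w_sq (R := R) k k
      rw [if_pos rfl] at this
      exact this
    simp only [f1, Finset.sum_sub_distrib, ← Finset.mul_sum, f2, f3]
    rw [Finset.sum_const, Finset.card_univ, Fintype.card_sum, Fintype.card_fin, nsmul_eq_mul,
      mul_one]
    push_cast
    ring
  rw [e4, h3, mul_zero, neg_zero]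

end free

variable {n : ℕ} {G : Type*} [Group G] {a b : Fin (n + 1) → G}

/-- An element of the mapping class group acting as minus one on the homology. -/
theorem exists_iota (h : IsSurf a b) : ∃ ι ∈ MMs h, ∀ x, H1 h ι x = -x := by
  have key : ∀ k ≤ n + 1, ∃ ι ∈ MMs h, (∀ i : Fin (n + 1), H1 h ι (e i) =
      if (i : ℕ) < k then -e i else e i) ∧
      ∀ i : Fin (n + 1), H1 h ι (f i) = if (i : ℕ) < k then -f i else f i := by
    intro k
    induction k with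
    | zero =>
      intro _
      refine ⟨1, (MMs h).one_mem, fun i => ?_, fun i => ?_⟩ <;>
      · rw [map_one, if_neg (Nat.not_lt_zero _)]
        rfl
    | succ k ih =>
      intro hk
      obtain ⟨ι, h1, h2, h3⟩ := ih (by omega)
      obtain ⟨j, hj⟩ : ∃ j : Fin (n + 1), (j : ℕ) = k := ⟨⟨k, hk⟩, rfl⟩
      have hA : TA h j ∈ MMs h := Subgroup.subset_closure (Or.inr (Or.inl ⟨_, rfl⟩))
      have hB : TB h j ∈ MMs h := Subgroup.subset_closure (Or.inr (Or.inr (Or.inl ⟨_, rfl⟩)))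
      have hR : Pool.MP_59b15d_al.H40L.RR h j ∈ MMs h :=
        mul_mem (mul_mem (inv_mem hA) hB) (inv_mem hA)
      have r1 : H1 h (Pool.MP_59b15d_al.H40L.RR h j) (e j) = f j := by
        rw [H1_e, Pool.MP_59b15d_al.H40L.RR_a, cls_mul, cls_mul, cls_inv, cls_a, cls_b]
        abel
      have r2 : H1 h (Pool.MP_59b15d_al.H40L.RR h j) (f j) = -e j := by
        rw [H1_f, Pool.MP_59b15d_al.H40L.RR_b, cls_inv, cls_a]
      have r3 : ∀ i, i ≠ j → H1 h (Pool.MP_59b15d_al.H40L.RR h j) (e i) = e i := by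
        intro i hi
        rw [H1_e, Pool.MP_59b15d_al.H40L.RR_a_ne h hi, cls_a]
      have r4 : ∀ i, i ≠ j → H1 h (Pool.MP_59b15d_al.H40L.RR h j) (f i) = f i := by
        intro i hi
        rw [H1_f, Pool.MP_59b15d_al.H40L.RR_b_ne h hi, cls_b]
      refine ⟨ι * (Pool.MP_59b15d_al.H40L.RR h j * Pool.MP_59b15d_al.H40L.RR h j),
        mul_mem h1 (mul_mem hR hR), fun i => ?_, fun i => ?_⟩
      · rw [map_mul, map_mul]
        change H1 h ι (H1 h (Pool.MP_59b15d_al.H40L.RR h j)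
          (H1 h (Pool.MP_59b15d_al.H40L.RR h j) (e i))) = _
        by_cases hi : i = j
        · subst hi
          rw [r1, r2, map_neg, h2, if_neg (by omega), if_pos (by omega)]
        · have hne : (i : ℕ) ≠ k := fun h' => hi (Fin.ext (h'.trans hj.symm))
          rw [r3 i hi, r3 i hi, h2]
          by_cases hlt : (i : ℕ) < k
          · rw [if_pos hlt, if_pos (by omega)]
          · rw [if_neg hlt, if_neg (by omega)]
      · rw [map_mul, map_mul]
        change H1 h ι (H1 h (Pool.MP_59b15d_al.H40L.RR h j)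
          (H1 h (Pool.MP_59b15d_al.H40L.RR h j) (f i))) = _
        by_cases hi : i = j
        · subst hi
          rw [r2, map_neg, r1, map_neg, h3, if_neg (by omega), if_pos (by omega)]
        · have hne : (i : ℕ) ≠ k := fun h' => hi (Fin.ext (h'.trans hj.symm))
          rw [r4 i hi, r4 i hi, h3]
          by_cases hlt : (i : ℕ) < k
          · rw [if_pos hlt, if_pos (by omega)]
          · rw [if_neg hlt, if_neg (by omega)]
  obtain ⟨ι, h1, h2, h3⟩ := key (n + 1) le_rfl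
  refine ⟨ι, h1, ?_⟩
  have h4 : H1 h ι = LinearEquiv.neg ℤ := by
    refine lin_ext (fun i => ?_) (fun i => ?_)
    · rw [h2, if_pos i.2]
      rfl
    · rw [h3, if_pos i.2]
      rfl
  intro x
  rw [h4]
  rfl

/-- The last step of the argument, for the prime three. -/
theorem fin_step3 (h : IsSurf a b) (hn : 2 ≤ n) (h31 : 3 ∣ n) (Z : Subgroup (MulAut G))
    (hZ : ∀ ψ ∈ MMs h, ∀ x ∈ Z, ψ * x * ψ⁻¹ ∈ Z) (hI : ∀ x : G, MulAut.conj x ∈ Z)
    (M : ℕ) (hM : M ≠ 0) (hM9 : 9 ∣ M) (k : Fin (n + 1)) (hT : TA h k ^ (2 * M) ∈ Z)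
    (hTL : ∀ φ ∈ MMs h, ∀ u : V (n + 1), TL a b φ ((M : ℤ) • u) → TH a b φ 0 → φ ∈ Z) :
    ∃ Γ : Subgroup G, Γ.Characteristic ∧ Γ.FiniteIndex ∧ ∀ φ ∈ MMs h, InnMod Γ φ → φ ∈ Z := by
  have h2M : 2 * M ≠ 0 := by omega
  have hWf : ((KD (n + 1) ((2 * M : ℕ) : ℤ)).comap hs ⊓
      (mu (ZMod 3) (Fin (n + 1) ⊕ Fin (n + 1))).ker).FiniteIndex := by
    have f1 : ((KD (n + 1) ((2 * M : ℕ) : ℤ)).comap hs).FiniteIndex :=
      comap_fi _ (KD_finiteIndex (2 * M) h2M)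
    have f2 : ((mu (ZMod 3) (Fin (n + 1) ⊕ Fin (n + 1))).ker).FiniteIndex :=
      Subgroup.finiteIndex_ker _
    infer_instance
  have : Group.FG (Fr (n + 1)) := inferInstance
  obtain ⟨U, hUc, hUf, hUW⟩ := exists_char_le _ hWf
  obtain ⟨Γ₀, hΓn, hΓf, hdl, hΓ⟩ :=
    Pool.MP_59b15d_al.H73S.comparisonF (n := n + 1) (by omega) U hUc hUf
  have hGfg : Group.FG G := surf_fg h
  have hmf : (Γ₀.map (qH a b)).FiniteIndex := map_fi _ (qH_surj h) hΓf
  obtain ⟨Γ, hc, hf, hle⟩ := exists_char_le (Γ₀.map (qH a b)) hmf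
  refine ⟨Γ, hc, hf, ?_⟩
  have hΓ'n : Γ.Normal := inferInstance
  rintro φ hφ ⟨g₀, hg₀⟩
  obtain ⟨φ₁, hφ₁e⟩ : ∃ φ₁ : MulAut G, φ₁ = MulAut.conj g₀⁻¹ * φ := ⟨_, rfl⟩
  have hφ₁ : φ₁ ∈ MMs h := by
    rw [hφ₁e]
    exact Subgroup.mul_mem _ (Subgroup.subset_closure (Or.inl ⟨_, rfl⟩)) hφ
  have hφ₁2 : ∀ z, φ₁ z * z⁻¹ ∈ Γ := by
    intro z
    have h1 := hΓ'n.conj_mem _ (hg₀ z) g₀⁻¹
    have h2 : g₀⁻¹ * (φ z * (g₀ * z * g₀⁻¹)⁻¹) * g₀⁻¹⁻¹ = φ₁ z * z⁻¹ := by
      rw [hφ₁e]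
      change _ = g₀⁻¹ * φ z * g₀⁻¹⁻¹ * z⁻¹
      group
    rwa [h2] at h1
  obtain ⟨F, hF⟩ := exists_Lf h hφ₁
  have hclose : ∀ z, F z * z⁻¹ ∈ Γ₀ := by
    intro z
    have h1 : qH a b (F z * z⁻¹) ∈ Γ₀.map (qH a b) := by
      rw [map_mul, map_inv, ← hF.ind]
      exact hle (hφ₁2 _)
    obtain ⟨w, hw, hw2⟩ := h1
    have h2 : qH a b (w⁻¹ * (F z * z⁻¹)) = 1 := by
      rw [map_mul, map_inv, hw2, inv_mul_cancel]
    have h3 := qH_ker h h2
    have h4 : Subgroup.normalClosure {(dl (n + 1) : Fr (n + 1))} ≤ Γ₀ :=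
      Subgroup.normalClosure_le_normal (by
        rintro _ rfl
        exact hdl)
    have h5 := Γ₀.mul_mem hw (h4 h3)
    rwa [mul_inv_cancel_left] at h5
  obtain ⟨j, hj⟩ := hΓ F (FT_dl F hF.mem) hclose
  have hMF : ∀ z, H40T.M (ZMod 3) (F z) =
      H40T.M (ZMod 3) ((dl (n + 1)) ^ j * z * ((dl (n + 1)) ^ j)⁻¹) := by
    intro z
    have h1 : mu (ZMod 3) _ (F z * (dl (n + 1) ^ j * z * (dl (n + 1) ^ j)⁻¹)⁻¹) = 1 :=
      (hUW (hj z)).2
    rw [map_mul, map_inv, mul_inv_eq_one] at h1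
    exact h1
  have hTrF : TrF ((2 * M : ℕ) : ℤ) F := by
    intro z
    have h1 : hs (F z * (dl (n + 1) ^ j * z * (dl (n + 1) ^ j)⁻¹)⁻¹) ∈
        KD (n + 1) ((2 * M : ℕ) : ℤ) := (hUW (hj z)).1
    have h2 : hs (F z * (dl (n + 1) ^ j * z * (dl (n + 1) ^ j)⁻¹)⁻¹) = hs (F z) * (hs z)⁻¹ := by
      have h3 : hs (dl (n + 1) ^ j * z * (dl (n + 1) ^ j)⁻¹ : Fr (n + 1)) = hs z := by
        have h4 := hs_dl (g := n + 1) (m := n + 1) le_rfl
        rw [map_mul, map_mul, map_inv, map_zpow, h4, ← zpow_mul,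
          ((Hs.z_comm (hs z)).zpow_left _).eq, mul_inv_cancel_right]
      rw [map_mul, map_inv, h3]
    rwa [h2] at h1
  have hcls : ∀ x : G, Dv ((2 * M : ℕ) : ℤ) (cls h (φ₁ x) - cls h x) := by
    intro x
    obtain ⟨z, rfl⟩ := qH_surj h x
    have h1 := (hTrF z).1
    rw [Hs.mul_v, Hs.inv_v, ← sub_eq_add_neg] at h1
    rw [hF.ind, cls_qH, cls_qH]
    exact h1
  -- the group generated by the conjugates of the power of the twist
  let R : Subgroup (MulAut G) :=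
    Subgroup.closure {x | ∃ ψ ∈ MMs h, x = ψ * TA h k ^ (2 * M) * ψ⁻¹}
  have hRn : ∀ f ∈ MCG a b, ∀ x ∈ R, f * x * f⁻¹ ∈ R := by
    intro f hf
    rw [MCG_eq h] at hf
    have h1 : R ≤ R.comap (MulAut.conj f).toMonoidHom := by
      change Subgroup.closure _ ≤ _
      rw [Subgroup.closure_le]
      rintro _ ⟨ψ, hψ, rfl⟩
      change f * (ψ * TA h k ^ (2 * M) * ψ⁻¹) * f⁻¹ ∈ R
      exact Subgroup.subset_closure ⟨f * ψ, (MMs h).mul_mem hf hψ, by group⟩
    exact fun x hx => h1 hx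
  have hRZ : R ≤ Z := by
    change Subgroup.closure _ ≤ _
    rw [Subgroup.closure_le]
    rintro _ ⟨ψ, hψ, rfl⟩
    exact hZ ψ hψ _ hT
  have hRT : ∀ r ∈ R, ∃ K, Lf a b r K ∧ TrF (M : ℤ) K ∧
      ∀ z, H40T.M (ZMod 3) (K z) = H40T.M (ZMod 3) z := by
    intro r hr
    refine Subgroup.closure_induction
      (p := fun r _ => ∃ K, Lf a b r K ∧ TrF (M : ℤ) K ∧
        ∀ z, H40T.M (ZMod 3) (K z) = H40T.M (ZMod 3) z) ?_ ?_ ?_ ?_ hr
    · rintro _ ⟨ψ, hψ, rfl⟩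
      obtain ⟨K, hK⟩ := exists_Lf h hψ
      refine ⟨K * FA k ^ (2 * M) * K⁻¹, (hK.mul ((Lf_TA h k).pow _)).mul hK.inv, ?_, ?_⟩
      · refine TrF.conj ?_ (FT_sym hK.mem)
        have := TrF_FA k (2 * M)
        push_cast at this
        exact this
      · exact M_conj _ (fun z => M_FA _ three k (hM9.mul_left 2) z) K
    · exact ⟨1, Lf.one a b, TrF.one _, fun _ => rfl⟩
    · rintro x y _ _ ⟨K, h1, h2, h2'⟩ ⟨L, h3, h4, h4'⟩
      exact ⟨K * L, h1.mul h3, h2.mul h4, fun z => by rw [MulAut.mul_apply, h2', h4']⟩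
    · rintro x _ ⟨K, h1, h2, h2'⟩
      exact ⟨K⁻¹, h1.inv, h2.inv, fun z => by rw [← h2' (K⁻¹ z), MulAut.apply_inv_self]⟩
  obtain ⟨r, hrR, hrM, hr1⟩ := power_H1 h (by omega) hRn (m := ((2 * M : ℕ) : ℤ))
    (by exact_mod_cast h2M) (k := k)
    (by
      rw [zpow_natCast]
      exact Subgroup.subset_closure ⟨1, (MMs h).one_mem, by group⟩)
    (f := φ₁) (by rw [MCG_eq h]; exact hφ₁) hcls
  obtain ⟨K, hK, hKT, hKM⟩ := hRT r hrR
  have hmem : φ₁ * r⁻¹ ∈ MMs h := by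
    rw [MCG_eq h] at hrM
    exact (MMs h).mul_mem hφ₁ ((MMs h).inv_mem hrM)
  obtain ⟨u₀, hu₀⟩ := exists_TL h hmem hr1
  have hL : Lf a b (φ₁ * r⁻¹) (F * K⁻¹) := hF.mul hK.inv
  have hKi : ∀ z, H40T.M (ZMod 3) (K⁻¹ z) = H40T.M (ZMod 3) z := fun z => by
    rw [← hKM (K⁻¹ z), MulAut.apply_inv_self]
  have hLM : ∀ z, H40T.M (ZMod 3) ((F * K⁻¹) z) =
      H40T.M (ZMod 3) ((dl (n + 1)) ^ j * z * ((dl (n + 1)) ^ j)⁻¹) := by
    intro z
    rw [MulAut.mul_apply, M_F, hKi, ← M_F, hMF]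
  have hLc : ∀ z, clr ((F * K⁻¹) z) = clr z := by
    intro z
    have := hu₀.all h (by omega) hL z
    exact clr_of_hs this
  have e4 : ((2 * (n + 1) + 1 : ℕ) : ZMod 3) = 0 := by
    rw [ZMod.natCast_eq_zero_iff]
    omega
  have hTH : TH a b (φ₁ * r⁻¹) 0 := by
    obtain ⟨t1, t2⟩ := th_dl (ZMod 3) e4 hLM
    exact ⟨_, hL, hLc, t1, t2⟩
  have hdvd : ∀ z, (M : ℤ) ∣ om u₀ (clr z) := by
    intro z
    have h1 := hu₀.all h (by omega) hL z
    have h2 := ((hTrF.mono (N' := (M : ℤ)) (by push_cast; exact dvd_mul_left _ _)).mul hKT.inv) z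
    rw [h1] at h2
    have h3 : hs z * Hs.z ^ om u₀ (clr z) * (hs z)⁻¹ = Hs.z ^ om u₀ (clr z) := by
      rw [← ((Hs.z_comm (hs z)).zpow_left _).eq, mul_inv_cancel_right]
    rw [h3] at h2
    exact z_mem_KD.1 h2
  have hDv : ∃ u : V (n + 1), u₀ = (M : ℤ) • u := by
    have h1 : ∀ i, (M : ℤ) ∣ (u₀ i).1 := by
      intro i
      have := hdvd (of (Sum.inr i))
      rwa [clr_b, om_f] at this
    have h2 : ∀ i, (M : ℤ) ∣ (u₀ i).2 := by
      intro i
      have := hdvd (of (Sum.inl i))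
      rw [clr_a, om_e] at this
      exact (dvd_neg).1 this
    choose p hp using h1
    choose q hq using h2
    refine ⟨fun i => (p i, q i), ?_⟩
    funext i
    exact Prod.ext (hp i) (hq i)
  obtain ⟨u, rfl⟩ := hDv
  have h1 : φ₁ * r⁻¹ ∈ Z := hTL _ hmem u hu₀ hTH
  have h2 : φ₁ ∈ Z := by
    have := Z.mul_mem h1 (hRZ hrR)
    rwa [inv_mul_cancel_right] at this
  have h3 : φ = MulAut.conj g₀ * φ₁ := by
    rw [hφ₁e, ← mul_assoc, ← map_mul, mul_inv_cancel, map_one, one_mul]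
  rw [h3]
  exact Z.mul_mem (hI _) h2

end Pool.Agent.H.MP_59b15d_al.H40T
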