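/-
The end of the argument: the central elements of order three.
-/
import Pool.Agent.H.MP_59b15d_al.h40th.Gen2
import Pool.Agent.H.MP_59b15d_al.h40th.Inn
import Pool.Agent.H.MP_59b15d_al.h40th.Te
import Pool.Agent.H.MP_59b15d_al.h40th.Tf
import Pool.Agent.H.MP_59b15d_al.h93c.End
import Pool.Agent.H.MP_59b15d_al.pk.Bk

set_option autoImplicit false

namespace Pool.Agent.H.MP_59b15d_al.H40T

open Pool.Agent.H.MP_59b15d_al.SP Pool.Agent.H.MP_59b15d_al.H93C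
open Pool.MP_59b15d_al.H24T Pool.MP_59b15d_al.H76R Pool.MP_59b15d_al.H73E
open Pool.MP_59b15d_al.H60G Pool.MP_59b15d_al.H95G
open Pool.MP_59b15d_al.H76 (InnMod)
open FreeGroup (of)

variable {n : ℕ} {G : Type*} [Group G] {a b : Fin (n + 1) → G}

/-- **The Torelli group is generated by its commutators with the mapping class group.** -/
theorem torelli_comm (h : IsSurf a b) (hn : 2 ≤ n) (K : Subgroup (MulAut G))
    (hK : ∀ ψ ∈ MMs h, ∀ x ∈ K, ψ * x * ψ⁻¹ ∈ K)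
    (hc : ∀ x ∈ MMs h, H1 h x = 1 → ∀ κ ∈ MMs h, x * κ * x⁻¹ * κ⁻¹ ∈ K) :
    ∀ φ ∈ MMs h, H1 h φ = 1 → φ ∈ K := by
  refine PK.torelli_gen h K hK (K1_gen h K hK hc hn) ?_
  rw [← PK.rt_six]
  have h1 := K2_gen h K hK hc hn
  have h2 : PK.rt h (Fin.last n) ^ 4 = (PK.rt h (Fin.last n) * PK.rt h (Fin.last n)) *
      (PK.rt h (Fin.last n) * PK.rt h (Fin.last n)) := by
    simp only [pow_succ, pow_zero, one_mul, mul_assoc]
  rwa [h2] at h1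

theorem torelli_comm' (h : IsSurf a b) (hn : 2 ≤ n) (K : Subgroup (MMs h)) (hKn : K.Normal)
    (hc : ∀ x : MMs h, H1 h (x : MulAut G) = 1 → ∀ κ, x * κ * x⁻¹ * κ⁻¹ ∈ K) :
    ∀ x : MMs h, H1 h (x : MulAut G) = 1 → x ∈ K := by
  intro x hx
  have h1 := torelli_comm h hn (K.map (MMs h).subtype) ?_ ?_ x x.2 hx
  · obtain ⟨y, hy, hyx⟩ := h1
    have : y = x := Subtype.ext hyx
    rwa [← this]
  · rintro ψ hψ _ ⟨y, hy, rfl⟩
    exact ⟨⟨ψ, hψ⟩ * y * ⟨ψ, hψ⟩⁻¹, hKn.conj_mem y hy _, rfl⟩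
  · intro x hx h1 κ hκ
    exact ⟨⟨x, hx⟩ * ⟨κ, hκ⟩ * ⟨x, hx⟩⁻¹ * ⟨κ, hκ⟩⁻¹, hc ⟨x, hx⟩ h1 ⟨κ, hκ⟩, rfl⟩

/-- **The end.**  `q` is the projection modulo `N`, `s` a central element with `s ^ 3 = 1` which
gives the commutators of the elements with shifts, and the elements with shift divisible by `M` are
powers of `s` modulo `N`. -/
theorem end_sigma (h : IsSurf a b) (hn : 4 ≤ n) (N : Subgroup (MulAut G))
    (hN : ∀ φ ∈ MMs h, ∀ x ∈ N, φ * x * φ⁻¹ ∈ N) (hI : ∀ x : G, MulAut.conj x ∈ N)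
    (hf : N.relIndex (MMs h) ≠ 0) {Q : Type*} [Group Q] (q : MMs h →* Q)
    (hq : ∀ x : MMs h, q x = 1 ↔ (x : MulAut G) ∈ N) (s : Q) (hsc : ∀ x, Commute s (q x))
    (hs3 : s ^ 3 = 1)
    (hcomm : ∀ (φ ψ : MMs h) (u v : V (n + 1)), TL a b (φ : MulAut G) u →
      TL a b (ψ : MulAut G) v → q (φ * ψ * φ⁻¹ * ψ⁻¹) = s ^ om u v)
    (M : ℕ) (hM0 : M ≠ 0) (hM : ∀ (φ : MMs h) (u : V (n + 1)),
      TL a b (φ : MulAut G) ((M : ℤ) • u) → ∃ k : ℤ, q φ = s ^ k) :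
    ∃ Γ : Subgroup G, Γ.Characteristic ∧ Γ.FiniteIndex ∧
      ∀ φ ∈ MMs h, InnMod Γ φ → φ ∈ N := by
  -- the order of `s` divides `n`
  have hsn : s ^ n = 1 := by
    obtain ⟨x, hx⟩ := exists_inner h (by omega) (e (⟨0, by omega⟩ : Fin (n + 1)))
    obtain ⟨ψ, hψ, hv⟩ := exists_bp h (i := ⟨0, by omega⟩) (j := ⟨1, by omega⟩) rfl _
      (Or.inr (Or.inl rfl))
    have hψM : ψ ∈ MMs h := MR_le_MMs h _ _ hψ
    have hxM : MulAut.conj x ∈ MMs h := Subgroup.subset_closure (Or.inl ⟨x, rfl⟩)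
    have h1 := hcomm ⟨_, hxM⟩ ⟨_, hψM⟩ _ _ hx hv
    have h2 : q ⟨MulAut.conj x, hxM⟩ = 1 := (hq _).2 (hI x)
    rw [map_mul, map_mul, map_mul, map_inv, map_inv, h2, one_mul, inv_one, mul_one,
      mul_inv_cancel, om_smul_left, om_e'] at h1
    have h3 : (f (⟨0, by omega⟩ : Fin (n + 1)) (⟨0, by omega⟩ : Fin (n + 1)) : ℤ × ℤ).2 = 1 := by
      rw [f_self]
    rw [h3, mul_one, zpow_natCast] at h1
    exact h1.symm
  obtain ⟨M', hM'0, hM'⟩ := exists_exp h N hN hf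
  have hA : TA h (Fin.last n) ∈ MMs h := Subgroup.subset_closure (Or.inr (Or.inl ⟨_, rfl⟩))
  have hT : TA h (Fin.last n) ^ (2 * (9 * (M * M'))) ∈ N := by
    have h1 : 2 * (9 * (M * M')) = M' * (18 * M) := by ring
    rw [h1, pow_mul]
    exact N.pow_mem (hM' _ hA) _
  have hMM : ∀ (φ : MMs h) (u : V (n + 1)), TL a b (φ : MulAut G)
      (((9 * (M * M') : ℕ) : ℤ) • u) → ∃ k : ℤ, q φ = s ^ k := by
    intro φ u hu
    refine hM φ (((9 * M' : ℕ) : ℤ) • u) ?_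
    rw [smul_smul]
    have h1 : (M : ℤ) * ((9 * M' : ℕ) : ℤ) = ((9 * (M * M') : ℕ) : ℤ) := by push_cast; ring
    rwa [h1]
  have hne : 9 * (M * M') ≠ 0 := by positivity
  by_cases h3 : 3 ∣ n
  · obtain ⟨ι, hι, hι1⟩ := exists_iota h
    refine fin_step3 h (by omega) h3 N hN hI (9 * (M * M')) hne (Dvd.intro _ rfl) (Fin.last n) hT ?_
    intro φ hφ u hu hθ
    have h4 := theta_end h (by omega) h3 q s hsc hs3 hcomm ((9 * (M * M') : ℕ) : ℤ) hMM ⟨ι, hι⟩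
      hι1 (fun K hK hc => torelli_comm' h (by omega) K hK hc) ⟨φ, hφ⟩ u hu hθ
    exact (hq _).1 h4
  · have hs1 : s = 1 := by
      have hcop : Nat.Coprime 3 n := (Nat.Prime.coprime_iff_not_dvd Nat.prime_three).2 h3
      have h5 : orderOf s ∣ 1 := by
        rw [← hcop]
        exact Nat.dvd_gcd (orderOf_dvd_of_pow_eq_one hs3) (orderOf_dvd_of_pow_eq_one hsn)
      exact orderOf_eq_one_iff.1 (Nat.dvd_one.1 h5)
    refine fin_step h (by omega) N hN hI (9 * (M * M')) hne (Fin.last n) hT ?_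
    intro φ hφ u hu
    obtain ⟨k, hk⟩ := hMM ⟨φ, hφ⟩ u hu
    rw [hs1, one_zpow] at hk
    exact (hq _).1 hk

end Pool.Agent.H.MP_59b15d_al.H40T
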